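import Mathlib

/-! Local flows on open subsets of a topological space. -/

set_option autoImplicit false

namespace TF

open Set

/-- A local flow on an open subset of `X`: the domain `dom` is an open set of pairs (time, point),
`carrier = {x | (0, x) ∈ dom}`, the times allowed at a point form an interval, and the group law
holds with maximal time intervals. -/
structure LocalFlow (X : Type*) [TopologicalSpace X] where
  dom : Set (ℝ × X)
  map : ℝ → X → X
  isOpen_dom : IsOpen dom
  continuousOn_map : ContinuousOn (fun p : ℝ × X => map p.1 p.2) dom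
  zero_mem : ∀ t x, (t, x) ∈ dom → (0, x) ∈ dom
  ordConnected : ∀ x, {t | (t, x) ∈ dom}.OrdConnected
  map_zero : ∀ x, (0, x) ∈ dom → map 0 x = x
  mem_shift : ∀ t x, (t, x) ∈ dom → ∀ s, (s, map t x) ∈ dom ↔ (t + s, x) ∈ dom
  map_add : ∀ t s x, (t, x) ∈ dom → (t + s, x) ∈ dom → map s (map t x) = map (t + s) x

end TF
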