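import Pool.Agent.TF.Section

/-! Compact families and Lindelöf families. -/

set_option autoImplicit false

namespace TF

open Set Topology Filter

namespace LocalFlow

variable {X : Type*} [TopologicalSpace X] (φ : LocalFlow X)

theorem isOpen_moves [T2Space X] : IsOpen {x | φ.Moves x} := by
  have h : {x | φ.Moves x} = ⋃ t : ℝ, {x | (t, x) ∈ φ.dom ∧ φ.map t x ≠ x} := by
    ext x
    simp only [mem_ofPred_eq, mem_iUnion, Moves]
    constructor
    · rintro ⟨-, t, h1, h2⟩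
      exact ⟨t, h1, h2⟩
    · rintro ⟨t, h1, h2⟩
      exact ⟨φ.zero_mem t x h1, t, h1, h2⟩
  rw [h]
  refine isOpen_iUnion fun t => ?_
  have hdt : IsOpen {x : X | (t, x) ∈ φ.dom} :=
    φ.isOpen_dom.preimage (f := fun x : X => ((t, x) : ℝ × X)) (by fun_prop)
  have hc : ContinuousOn (fun x : X => (φ.map t x, x)) {x : X | (t, x) ∈ φ.dom} := by
    refine ContinuousOn.prodMk ?_ continuousOn_id
    have h1 : ContinuousOn (fun x : X => ((t, x) : ℝ × X)) {x : X | (t, x) ∈ φ.dom} := by fun_prop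
    exact φ.continuousOn_map.comp h1 fun x hx => hx
  have := hc.isOpen_inter_preimage hdt (isClosed_diagonal (X := X)).isOpen_compl
  exact this

theorem compact_piece {ι : Type*} [T5Space X] [LocallyCompactSpace X]
    {K : ι → Set X} (hK : ∀ i, IsCompact (K i)) (hM : ∀ i, ∀ x ∈ K i, φ.Moves x) {η : ℝ}
    (hη : 0 < η) (i : ι) :
    ∃ (N S : ℕ → Set X) (δ : ℕ → ℝ), (∀ l, IsCompact (N l)) ∧ (∀ l, IsCompact (S l)) ∧
      (∀ l, 0 < δ l ∧ δ l ≤ η) ∧
      (∀ l, ∀ y ∈ N l, ∃ t, |t| ≤ δ l ∧ (t, y) ∈ φ.dom ∧ φ.map t y ∈ S l) ∧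
      (∀ l, ∀ z ∈ S l, (0, z) ∈ φ.dom) ∧
      (∀ l, ∀ z ∈ S l, ∀ t, |t| ≤ δ l → (t, z) ∈ φ.dom → φ.map t z ∈ S l → t = 0) ∧
      K i ⊆ ⋃ l, N l := by
  rcases (K i).eq_empty_or_nonempty with he | hne
  · refine ⟨fun _ => ∅, fun _ => ∅, fun _ => η, fun _ => isCompact_empty, fun _ => isCompact_empty,
      fun _ => ⟨hη, le_rfl⟩, ?_, ?_, ?_, ?_⟩
    · intro l y hy; exact hy.elim
    · intro l y hy; exact hy.elim
    · intro l y hy; exact hy.elim
    · rw [he]; exact empty_subset _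
  · have h1 : ∀ x ∈ K i, ∃ (N S : Set X) (δ : ℝ), IsCompact N ∧ N ∈ 𝓝 x ∧ IsCompact S ∧ 0 < δ ∧
        δ ≤ η ∧ (∀ y ∈ N, ∃ t, |t| ≤ δ ∧ (t, y) ∈ φ.dom ∧ φ.map t y ∈ S) ∧
        (∀ z ∈ S, (0, z) ∈ φ.dom) ∧
        (∀ z ∈ S, ∀ t, |t| ≤ δ → (t, z) ∈ φ.dom → φ.map t z ∈ S → t = 0) :=
      fun x hx => φ.flowBox (hM i x hx) hη
    choose! N S δ hN1 hN2 hS1 hδ1 hδ2 hf1 hf2 hf3 using h1
    obtain ⟨t, ht, htc⟩ := (hK i).elim_nhds_subcover N hN2
    have htne : (t : Set X).Nonempty := by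
      obtain ⟨x, hx⟩ := hne
      obtain ⟨y, hy, -⟩ := mem_iUnion₂.1 (htc hx)
      exact ⟨y, hy⟩
    obtain ⟨e, he⟩ := (Finset.countable_toSet t).exists_eq_range htne
    have hek : ∀ l, e l ∈ K i := fun l => ht _ (by
      have : e l ∈ (t : Set X) := by rw [he]; exact ⟨l, rfl⟩
      exact this)
    refine ⟨fun l => N (e l), fun l => S (e l), fun l => δ (e l), fun l => hN1 _ (hek l),
      fun l => hS1 _ (hek l), fun l => ⟨hδ1 _ (hek l), hδ2 _ (hek l)⟩, fun l => hf1 _ (hek l),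
      fun l => hf2 _ (hek l), fun l => hf3 _ (hek l), ?_⟩
    intro x hx
    obtain ⟨y, hy, hxy⟩ := mem_iUnion₂.1 (htc hx)
    have : y ∈ (t : Set X) := hy
    rw [he] at this
    obtain ⟨l, rfl⟩ := this
    exact mem_iUnion.2 ⟨l, hxy⟩

/-- Relatively discrete families of compact sets of moving points expand: uniform version. -/
theorem expands_compact_uniform [T5Space X] [LocallyCompactSpace X] [LocallyConnectedSpace X]
    {ι : Type*} {K : ι → Set X} (hK : ∀ i, IsCompact (K i))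
    (hM : ∀ i, ∀ x ∈ K i, φ.Moves x) {η : ℝ} (hη : 0 < η)
    (c1 : ∀ i, ∀ x ∈ K i, ∀ t, |t| ≤ 2 * η → (t, x) ∈ φ.dom)
    (c3 : ∀ i, ∀ x ∈ K i, ∀ t, |t| ≤ 2 * η →
      φ.map t x ∉ closure (⋃ j, ⋃ (_ : j ≠ i), K j)) :
    Expands K := by
  classical
  have hTd := φ.relDisc_sweep c1 c3
  have hKd : RelDisc K := by
    apply RelDisc.of_notMem_closure
    intro i x hx
    have := c3 i x hx 0 (by simp; positivity)
    rwa [φ.map_zero x (hM i x hx).1] at this
  choose N S δ hN1 hS1 hδ hf1 hf2 hf3 hcov using φ.compact_piece hK hM hη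
  -- the small sections
  set Sg : ℕ → ι → Set X := fun l i => S i l ∩ φ.sweep (Icc (-(δ i l)) (δ i l)) (K i ∩ N i l)
    with hSg
  have hsw : ∀ l i, IsCompact (φ.sweep (Icc (-(δ i l)) (δ i l)) (K i ∩ N i l)) := by
    intro l i
    apply φ.isCompact_sweep isCompact_Icc ((hK i).inter (hN1 i l))
    intro t ht x hx
    apply c1 i x hx.1
    rw [abs_le]
    have h1 := (hδ i l).2
    constructor <;> linarith [ht.1, ht.2, (hδ i l).2]
  have hSgT : ∀ l i, Sg l i ⊆ φ.sweep (Icc (-η) η) (K i) := by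
    intro l i z hz
    refine φ.sweep_mono ?_ inter_subset_left hz.2
    have h1 := (hδ i l).2
    exact Icc_subset_Icc (by linarith) h1
  have hEx : ∀ l, Expands (Sg l) := by
    intro l
    apply φ.expands_sections
    · intro i
      exact (hS1 i l).inter (hsw l i)
    · exact hTd.mono (hSgT l)
    · intro i z hz
      exact hf2 i l z hz.1
    · intro i
      refine ⟨δ i l, (hδ i l).1, fun z hz t ht hd hm => hf3 i l z hz.1 t ht hd hm.1⟩
  choose U hUo hSU hUd using hEx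
  -- the open pieces
  set G : ℕ × ℚ → ι → Set X := fun p i => {y | (((p.2 : ℝ), y) ∈ φ.dom) ∧ φ.map (p.2 : ℝ) y ∈ U p.1 i}
    with hG
  have hGo : ∀ p i, IsOpen (G p i) := fun p i => φ.isOpen_pre_slice (hUo p.1 i) _
  have hGd : ∀ p i j, i ≠ j → Disjoint (G p i) (G p j) := by
    intro p i j hij
    rw [Set.disjoint_left]
    rintro x ⟨-, hx⟩ ⟨-, hx'⟩
    exact Set.disjoint_left.1 (hUd p.1 i j hij) hx hx'
  have hKG : ∀ i, K i ⊆ ⋃ p, G p i := by
    intro i y hy
    obtain ⟨l, hl⟩ := mem_iUnion.1 (hcov i hy)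
    obtain ⟨t, ht, htd, htS⟩ := hf1 i l y hl
    have hz : φ.map t y ∈ U l i := hSU l i ⟨htS, φ.mem_sweep.2 ⟨t, abs_le.1 ht, y, ⟨hy, hl⟩, rfl⟩⟩
    have hop := φ.isOpen_pre_time (hUo l i) y
    obtain ⟨q, hq⟩ := Rat.denseRange_cast (𝕜 := ℝ).exists_mem_open hop ⟨t, htd, hz⟩
    exact mem_iUnion.2 ⟨(l, q), hq⟩
  have hpiece : ∀ i, ∃ C : ℕ × ℚ → Set X, (∀ p, IsCompact (C p)) ∧ (∀ p, C p ⊆ G p i) ∧
      K i ⊆ ⋃ p, C p := by
    intro i
    obtain ⟨t, ht⟩ := (hK i).elim_finite_subcover (fun p => G p i) (fun p => hGo p i) (hKG i)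
    obtain ⟨C, hC1, hC2, hC3⟩ := (hK i).finite_compact_cover t (fun p => G p i)
      (fun p _ => hGo p i) ht
    refine ⟨C, hC1, hC2, ?_⟩
    rw [hC3]
    exact iUnion₂_subset fun p _ => subset_iUnion C p
  choose C hC1 hC2 hC3 using hpiece
  apply sigma_lemma hKd (fun p i => K i ∩ C i p)
  · intro p i
    exact inter_subset_left
  · intro p i x hx hcl
    have : IsClosed (K i ∩ C i p) := (hK i).isClosed.inter (hC1 i p).isClosed
    rwa [this.closure_eq] at hcl
  · intro i x hx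
    obtain ⟨p, hp⟩ := mem_iUnion.1 (hC3 i hx)
    exact mem_iUnion.2 ⟨p, hx, hp⟩
  · intro p
    exact ⟨G p, hGo p, fun i => inter_subset_right.trans (hC2 i p), hGd p⟩

/-- Relatively discrete families of compact sets of moving points expand. -/
theorem expands_compact [T5Space X] [LocallyCompactSpace X] [LocallyConnectedSpace X]
    {ι : Type*} {K : ι → Set X} (hK : ∀ i, IsCompact (K i)) (hd : RelDisc K)
    (hM : ∀ i, ∀ x ∈ K i, φ.Moves x) : Expands K := by
  classical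
  set η : ℕ → ℝ := fun m => 1 / ((m : ℝ) + 1) with hη
  have hηpos : ∀ m, 0 < η m := fun m => by simp only [hη]; positivity
  set Good : ℕ → ι → Prop := fun m i =>
    (∀ x ∈ K i, ∀ t, |t| ≤ 2 * η m → (t, x) ∈ φ.dom) ∧
    (∀ x ∈ K i, ∀ t, |t| ≤ 2 * η m → φ.map t x ∉ closure (⋃ j, ⋃ (_ : j ≠ i), K j)) with hGood
  have hex : ∀ i, ∃ m, Good m i := by
    intro i
    obtain ⟨m, hm, hm'⟩ := exists_eta (hK i)
      (φ.isOpen_pre (O := (closure (⋃ j, ⋃ (_ : j ≠ i), K j))ᶜ) isClosed_closure.isOpen_compl)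
      (by
        intro x hx
        refine ⟨(hM i x hx).1, ?_⟩
        change φ.map 0 x ∉ _
        rw [φ.map_zero x (hM i x hx).1]
        exact hd.notMem_closure hx) one_pos
    exact ⟨m, fun x hx t ht => (hm' t ht x hx).1, fun x hx t ht => (hm' t ht x hx).2⟩
  apply sigma_lemma hd (fun m i => {x ∈ K i | Good m i})
  · intro m i x hx
    exact hx.1
  · intro m i x hx hcl
    obtain ⟨y, -, hy⟩ := mem_closure_iff_nhds.1 hcl univ univ_mem
    exact ⟨hx, hy.2⟩
  · intro i x hx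
    obtain ⟨m, hm⟩ := hex i
    exact mem_iUnion.2 ⟨m, hx, hm⟩
  · intro m
    apply φ.expands_compact_uniform (η := η m) _ _ (hηpos m)
    · rintro i x ⟨hx, hg⟩ t ht
      exact hg.1 x hx t ht
    · rintro i x ⟨hx, hg⟩ t ht hcl
      refine hg.2 x hx t ht (closure_mono ?_ hcl)
      exact iUnion_mono fun j => iUnion_mono fun _ y hy => hy.1
    · intro i
      by_cases hg : Good m i
      · have : {x ∈ K i | Good m i} = K i := by
          ext x; exact ⟨fun h => h.1, fun h => ⟨h, hg⟩⟩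
        rw [this]; exact hK i
      · have : {x ∈ K i | Good m i} = ∅ := by
          ext x; exact ⟨fun h => hg h.2, fun h => h.elim⟩
        rw [this]; exact isCompact_empty
    · rintro i x ⟨hx, -⟩
      exact hM i x hx

/-- Relatively discrete families of Lindelöf sets of moving points expand. -/
theorem expands_lindelof [T5Space X] [LocallyCompactSpace X] [LocallyConnectedSpace X]
    {ι : Type*} {F : ι → Set X} (hL : ∀ i, IsLindelof (F i)) (hd : RelDisc F)
    (hM : ∀ i, ∀ x ∈ F i, φ.Moves x) : Expands F := by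
  classical
  set Ω : ι → Set X := fun i => (closure (⋃ j, ⋃ (_ : j ≠ i), F j))ᶜ ∩ {x | φ.Moves x} with hΩ
  have hΩo : ∀ i, IsOpen (Ω i) := fun i => isClosed_closure.isOpen_compl.inter φ.isOpen_moves
  have hFΩ : ∀ i, F i ⊆ Ω i := fun i x hx => ⟨hd.notMem_closure hx, hM i x hx⟩
  have hseq : ∀ i, ∃ C : ℕ → Set X, (∀ m, IsCompact (C m)) ∧ (∀ m, C m ⊆ Ω i) ∧
      F i ⊆ ⋃ m, C m := by
    intro i
    rcases (F i).eq_empty_or_nonempty with he | hne
    · exact ⟨fun _ => ∅, fun _ => isCompact_empty, fun _ => empty_subset _, by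
        rw [he]; exact empty_subset _⟩
    · have h1 : ∀ x ∈ F i, ∃ C ∈ 𝓝 x, C ⊆ Ω i ∧ IsCompact C := fun x hx =>
        local_compact_nhds ((hΩo i).mem_nhds (hFΩ i hx))
      choose! C hCn hCΩ hCc using h1
      obtain ⟨t, htc, ht, hcov⟩ := (hL i).elim_nhds_subcover C hCn
      have htne : t.Nonempty := by
        obtain ⟨x, hx⟩ := hne
        obtain ⟨y, hy, -⟩ := mem_iUnion₂.1 (hcov hx)
        exact ⟨y, hy⟩
      obtain ⟨e, he⟩ := htc.exists_eq_range htne
      have hek : ∀ m, e m ∈ F i := fun m => ht _ (by rw [he]; exact ⟨m, rfl⟩)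
      refine ⟨fun m => C (e m), fun m => hCc _ (hek m), fun m => hCΩ _ (hek m), ?_⟩
      intro x hx
      obtain ⟨y, hy, hxy⟩ := mem_iUnion₂.1 (hcov hx)
      rw [he] at hy
      obtain ⟨m, rfl⟩ := hy
      exact mem_iUnion.2 ⟨m, hxy⟩
  choose C hCc hCΩ hCcov using hseq
  apply sigma_lemma hd (fun m i => F i ∩ C i m)
  · intro m i
    exact inter_subset_left
  · intro m i x hx hcl
    refine ⟨hx, ?_⟩
    have := closure_mono (inter_subset_right (s := F i) (t := C i m)) hcl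
    rwa [(hCc i m).isClosed.closure_eq] at this
  · intro i x hx
    obtain ⟨m, hm⟩ := mem_iUnion.1 (hCcov i hx)
    exact mem_iUnion.2 ⟨m, hx, hm⟩
  · intro m
    have hsub : ∀ i, closure (F i ∩ C i m) ⊆ C i m := fun i =>
      closure_minimal inter_subset_right (hCc i m).isClosed
    have hE : Expands (fun i => closure (F i ∩ C i m)) := by
      apply φ.expands_compact
      · intro i
        exact (hCc i m).of_isClosed_subset isClosed_closure (hsub i)
      · intro i x hx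
        have hxΩ : x ∈ Ω i := hCΩ i m (hsub i hx)
        refine ⟨(closure (⋃ j, ⋃ (_ : j ≠ i), F j))ᶜ,
          isClosed_closure.isOpen_compl.mem_nhds hxΩ.1, ?_⟩
        rintro j ⟨y, hy, hyj⟩
        by_contra hji
        apply hy
        refine closure_mono ?_ hyj
        intro z hz
        exact mem_iUnion.2 ⟨j, mem_iUnion.2 ⟨hji, hz.1⟩⟩
      · intro i x hx
        exact (hCΩ i m (hsub i hx)).2
    exact hE.mono fun i => subset_closure

end LocalFlow

end TF
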