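import Pool.Agent.TF.Sigma
import Pool.Agent.TF.Defs

/-! Local flows and the main separation lemma. -/

set_option autoImplicit false

namespace TF

open Set Topology Filter

namespace LocalFlow

variable {X : Type*} [TopologicalSpace X] (φ : LocalFlow X)

theorem isOpen_pre {O : Set X} (hO : IsOpen O) :
    IsOpen {p : ℝ × X | p ∈ φ.dom ∧ φ.map p.1 p.2 ∈ O} := by
  have := φ.continuousOn_map.isOpen_inter_preimage φ.isOpen_dom hO
  exact this

theorem isOpen_pre_slice {O : Set X} (hO : IsOpen O) (t : ℝ) :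
    IsOpen {x : X | (t, x) ∈ φ.dom ∧ φ.map t x ∈ O} := by
  have h := φ.isOpen_pre hO
  have hc : Continuous fun x : X => ((t, x) : ℝ × X) := by fun_prop
  exact h.preimage hc

theorem isOpen_pre_time {O : Set X} (hO : IsOpen O) (x : X) :
    IsOpen {t : ℝ | (t, x) ∈ φ.dom ∧ φ.map t x ∈ O} := by
  have h := φ.isOpen_pre hO
  have hc : Continuous fun t : ℝ => ((t, x) : ℝ × X) := by fun_prop
  exact h.preimage hc

theorem neg_mem {t : ℝ} {x : X} (h : (t, x) ∈ φ.dom) : (-t, φ.map t x) ∈ φ.dom := by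
  rw [φ.mem_shift t x h]
  simpa using φ.zero_mem t x h

theorem map_neg {t : ℝ} {x : X} (h : (t, x) ∈ φ.dom) : φ.map (-t) (φ.map t x) = x := by
  have h0 := φ.zero_mem t x h
  rw [φ.map_add t (-t) x h (by simpa using h0)]
  simpa using φ.map_zero x h0

/-- the set of all `map t x`, `t ∈ Θ`, `x ∈ K` -/
def sweep (Θ : Set ℝ) (K : Set X) : Set X := (fun p : ℝ × X => φ.map p.1 p.2) '' (Θ ×ˢ K)

theorem mem_sweep {Θ : Set ℝ} {K : Set X} {z : X} :
    z ∈ φ.sweep Θ K ↔ ∃ t ∈ Θ, ∃ x ∈ K, φ.map t x = z := by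
  constructor
  · rintro ⟨⟨t, x⟩, ⟨ht, hx⟩, rfl⟩
    exact ⟨t, ht, x, hx, rfl⟩
  · rintro ⟨t, ht, x, hx, rfl⟩
    exact ⟨(t, x), ⟨ht, hx⟩, rfl⟩

theorem isCompact_sweep {Θ : Set ℝ} {K : Set X} (hΘ : IsCompact Θ) (hK : IsCompact K)
    (h : ∀ t ∈ Θ, ∀ x ∈ K, (t, x) ∈ φ.dom) : IsCompact (φ.sweep Θ K) := by
  refine (hΘ.prod hK).image_of_continuousOn (φ.continuousOn_map.mono ?_)
  rintro ⟨t, x⟩ ⟨ht, hx⟩
  exact h t ht x hx

theorem sweep_mono {Θ Θ' : Set ℝ} {K K' : Set X} (h : Θ ⊆ Θ') (h' : K ⊆ K') :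
    φ.sweep Θ K ⊆ φ.sweep Θ' K' := image_mono (prod_mono h h')

/-- tube lemma for compact sets -/
theorem exists_delta {K : Set X} (hK : IsCompact K) {O : Set (ℝ × X)} (hO : IsOpen O)
    (h : ∀ x ∈ K, ((0 : ℝ), x) ∈ O) : ∃ δ > 0, ∀ t : ℝ, |t| ≤ δ → ∀ x ∈ K, (t, x) ∈ O := by
  obtain ⟨u, v, hu, -, h0, hv, huv⟩ := generalized_tube_lemma (isCompact_singleton (x := (0 : ℝ)))
    hK hO (by rintro ⟨t, x⟩ ⟨ht, hx⟩; rw [mem_singleton_iff] at ht; subst ht; exact h x hx)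
  obtain ⟨ε, hε, hb⟩ := Metric.isOpen_iff.1 hu 0 (h0 rfl)
  refine ⟨ε / 2, by positivity, fun t ht x hx => huv ⟨hb ?_, hv hx⟩⟩
  rw [Metric.mem_ball, Real.dist_eq, sub_zero]
  linarith

/-- The swept family is relatively discrete. -/
theorem relDisc_sweep {ι : Type*} {K : ι → Set X} {η : ℝ}
    (c1 : ∀ i, ∀ x ∈ K i, ∀ t, |t| ≤ 2 * η → (t, x) ∈ φ.dom)
    (c3 : ∀ i, ∀ x ∈ K i, ∀ t, |t| ≤ 2 * η →
      φ.map t x ∉ closure (⋃ j, ⋃ (_ : j ≠ i), K j)) :
    RelDisc (fun i => φ.sweep (Icc (-η) η) (K i)) := by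
  intro i z hz
  obtain ⟨s, hs, x, hx, rfl⟩ := φ.mem_sweep.1 hz
  have hη : 0 ≤ η := by
    have := hs.1.trans hs.2
    linarith
  set Q : Set X := closure (⋃ j, ⋃ (_ : j ≠ i), K j) with hQ
  have hO := φ.isOpen_pre (O := Qᶜ) isClosed_closure.isOpen_compl
  have hsx : (s, x) ∈ φ.dom := c1 i x hx s (by rw [abs_le]; constructor <;> linarith [hs.1, hs.2])
  have hsub : Icc (-η) η ×ˢ {φ.map s x} ⊆ {p : ℝ × X | p ∈ φ.dom ∧ φ.map p.1 p.2 ∈ Qᶜ} := by
    rintro ⟨t, w⟩ ⟨ht, hw⟩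
    rw [mem_singleton_iff] at hw
    subst hw
    have hst : |s + t| ≤ 2 * η := by
      rw [abs_le]; constructor <;> linarith [hs.1, hs.2, ht.1, ht.2]
    refine ⟨(φ.mem_shift s x hsx t).2 (c1 i x hx _ hst), ?_⟩
    change φ.map t (φ.map s x) ∉ Q
    rw [φ.map_add s t x hsx (c1 i x hx _ hst)]
    exact c3 i x hx _ hst
  obtain ⟨u, v, -, hv, hu', hv', huv⟩ := generalized_tube_lemma isCompact_Icc
    (isCompact_singleton (x := φ.map s x)) hO hsub
  refine ⟨v, hv.mem_nhds (hv' rfl), ?_⟩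
  rintro j ⟨w, hwv, hwj⟩
  obtain ⟨t, ht, y, hy, rfl⟩ := φ.mem_sweep.1 hwj
  by_contra hji
  have hty : (t, y) ∈ φ.dom := c1 j y hy t (by rw [abs_le]; constructor <;> linarith [ht.1, ht.2])
  have hmem : ((-t, φ.map t y) : ℝ × X) ∈ u ×ˢ v :=
    ⟨hu' ⟨by linarith [ht.2], by linarith [ht.1]⟩, hwv⟩
  have := (huv hmem).2
  change φ.map (-t) (φ.map t y) ∉ Q at this
  rw [φ.map_neg hty] at this
  exact this (subset_closure (mem_iUnion.2 ⟨j, mem_iUnion.2 ⟨hji, hy⟩⟩))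

/-- Main lemma: uniform version. -/
theorem expands_uniform [T2Space X] [CompletelyNormalSpace X] [LocallyCompactSpace X]
    [LocallyConnectedSpace X] {ι : Type*} {K : ι → Set X} (hK : ∀ i, IsCompact (K i)) {η : ℝ}
    (hη : 0 < η)
    (c1 : ∀ i, ∀ x ∈ K i, ∀ t, |t| ≤ 2 * η → (t, x) ∈ φ.dom)
    (c2 : ∀ i, ∀ x ∈ K i, ∀ t, |t| ≤ η → φ.map t x ∈ K i → t = 0)
    (c3 : ∀ i, ∀ x ∈ K i, ∀ t, |t| ≤ 2 * η →
      φ.map t x ∉ closure (⋃ j, ⋃ (_ : j ≠ i), K j)) :
    Expands K := by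
  classical
  -- the tubes
  set T : ι → Set X := fun i => φ.sweep (Icc (-η) η) (K i) with hT
  have hTd : RelDisc T := φ.relDisc_sweep c1 c3
  have hKd : RelDisc K := by
    apply RelDisc.of_notMem_closure
    intro i x hx
    have h0 : (0, x) ∈ φ.dom := c1 i x hx 0 (by simp; positivity)
    have := c3 i x hx 0 (by simp; positivity)
    rwa [φ.map_zero x h0] at this
  have hdom : ∀ i, ∀ x ∈ K i, ∀ t ∈ Icc (-η) η, (t, x) ∈ φ.dom := fun i x hx t ht =>
    c1 i x hx t (by rw [abs_le]; constructor <;> linarith [ht.1, ht.2])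
  -- sets of times
  set S : Set ℝ → ι → Set X := fun Θ i => φ.sweep Θ (K i) with hS
  have hScomp : ∀ Θ : Set ℝ, IsCompact Θ → Θ ⊆ Icc (-η) η → ∀ i, IsCompact (S Θ i) :=
    fun Θ hΘ hsub i => φ.isCompact_sweep hΘ (hK i) fun t ht x hx => hdom i x hx t (hsub ht)
  have hST : ∀ Θ : Set ℝ, Θ ⊆ Icc (-η) η → ∀ i, S Θ i ⊆ T i := fun Θ hsub i =>
    φ.sweep_mono hsub subset_rfl
  have hclS : ∀ Θ : Set ℝ, IsCompact Θ → Θ ⊆ Icc (-η) η → ∀ i, ∀ z ∈ T i,
      z ∈ closure (⋃ j, S Θ j) → z ∈ S Θ i := by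
    intro Θ hΘ hsub i z hz hcl
    obtain ⟨V, hV, hj⟩ := hTd i z hz
    have : z ∈ closure (S Θ i) := by
      rw [mem_closure_iff_nhds]
      intro W hW
      obtain ⟨y, ⟨hyW, hyV⟩, hy⟩ := mem_closure_iff_nhds.1 hcl (W ∩ V) (inter_mem hW hV)
      obtain ⟨j, hyj⟩ := mem_iUnion.1 hy
      have : j = i := hj j ⟨y, hyV, hST Θ hsub j hyj⟩
      subst this
      exact ⟨y, hyW, hyj⟩
    rwa [(hScomp Θ hΘ hsub i).isClosed.closure_eq] at this
  have hSdisj : ∀ Θ Θ' : Set ℝ, Θ ⊆ Icc 0 η → Θ' ⊆ Icc 0 η → Disjoint Θ Θ' → ∀ i j,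
      Disjoint (S Θ i) (S Θ' j) := by
    intro Θ Θ' h1 h2 hd i j
    rw [Set.disjoint_left]
    intro z hz hz'
    obtain ⟨s, hs, x, hx, rfl⟩ := φ.mem_sweep.1 hz
    obtain ⟨t, ht, y, hy, hxy⟩ := φ.mem_sweep.1 hz'
    have hs1 := h1 hs
    have ht1 := h2 ht
    have hzi : φ.map s x ∈ T i :=
      φ.mem_sweep.2 ⟨s, ⟨by linarith [hs1.1], hs1.2⟩, x, hx, rfl⟩
    have hzj : φ.map s x ∈ T j :=
      φ.mem_sweep.2 ⟨t, ⟨by linarith [ht1.1], ht1.2⟩, y, hy, hxy⟩
    obtain ⟨V, hV, hj⟩ := hTd i _ hzi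
    have hji : j = i := hj j ⟨_, mem_of_mem_nhds hV, hzj⟩
    subst hji
    have hsd : (s, x) ∈ φ.dom := hdom j x hx s ⟨by linarith [hs1.1], hs1.2⟩
    have htd : (t, y) ∈ φ.dom := hdom j y hy t ⟨by linarith [ht1.1], ht1.2⟩
    have hst : |s - t| ≤ η := by
      rw [abs_le]; constructor <;> linarith [hs1.1, hs1.2, ht1.1, ht1.2]
    have h3 : φ.map (s + -t) x = y := by
      rw [← φ.map_add s (-t) x hsd (c1 j x hx _ (by rw [← sub_eq_add_neg]; linarith)), ← hxy,
        φ.map_neg htd]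
    have h4 : s + -t = 0 := c2 j x hx _ (by rw [← sub_eq_add_neg]; exact hst) (by rw [h3]; exact hy)
    have h5 : s = t := by linarith
    subst h5
    exact Set.disjoint_left.1 hd hs ht
  -- the times
  set τ : ℕ → ℝ := fun n => η / (n + 1) with hτ
  have hτpos : ∀ n, 0 < τ n := fun n => by simp only [hτ]; positivity
  have hτle : ∀ n, τ n ≤ η := fun n => by
    simp only [hτ]
    rw [div_le_iff₀ (by positivity)]
    nlinarith [Nat.cast_nonneg (α := ℝ) n]
  have hτanti : ∀ m n, m < n → τ n < τ m := by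
    intro m n hmn
    simp only [hτ]
    have : (m : ℝ) < n := by exact_mod_cast hmn
    gcongr
  have hτlim : Tendsto τ atTop (𝓝 0) := by
    have h := tendsto_const_div_atTop_nhds_zero_nat η
    have h2 := h.comp (tendsto_add_atTop_nat 1)
    refine h2.congr fun n => ?_
    simp [hτ]
  have hθ1 : ∀ n, ({τ n} : Set ℝ) ⊆ Icc 0 η := fun n t ht => by
    rw [mem_singleton_iff] at ht; subst ht; exact ⟨(hτpos n).le, hτle n⟩
  set Θ : ℕ → Set ℝ := fun n => insert 0 (range fun k => τ (k + (n + 1))) with hΘ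
  have hΘc : ∀ n, IsCompact (Θ n) := fun n =>
    (hτlim.comp (tendsto_add_atTop_nat (n + 1))).isCompact_insert_range
  have hΘsub : ∀ n, Θ n ⊆ Icc 0 η := by
    intro n t ht
    rcases ht with rfl | ⟨k, rfl⟩
    · exact ⟨le_rfl, hη.le⟩
    · exact ⟨(hτpos _).le, hτle _⟩
  have hIcc : Icc 0 η ⊆ Icc (-η) η := Icc_subset_Icc_left (by linarith)
  have hdisj : ∀ n, Disjoint ({τ n} : Set ℝ) (Θ n) := by
    intro n
    rw [Set.disjoint_left]
    intro t ht ht'
    rw [mem_singleton_iff] at ht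
    subst ht
    rcases ht' with h | ⟨k, hk⟩
    · exact (hτpos n).ne' h
    · exact (hτanti n (k + (n + 1)) (by omega)).ne hk
  set A : ℕ → Set X := fun n => ⋃ i, S {τ n} i with hA
  set C : ℕ → Set X := fun n => ⋃ i, S (Θ n) i with hC
  have hACd : ∀ n, Disjoint (A n) (C n) := by
    intro n
    rw [Set.disjoint_left]
    intro z hz hz'
    obtain ⟨i, hi⟩ := mem_iUnion.1 hz
    obtain ⟨j, hj⟩ := mem_iUnion.1 hz'
    exact Set.disjoint_left.1 (hSdisj _ _ (hθ1 n) (hΘsub n) (hdisj n) i j) hi hj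
  have hsep : ∀ n, ∃ U V : Set X, IsOpen U ∧ IsOpen V ∧ A n ⊆ U ∧ C n ⊆ V ∧ Disjoint U V := by
    intro n
    apply separated_open
    · rw [Set.disjoint_left]
      intro z hz hz'
      obtain ⟨i, hi⟩ := mem_iUnion.1 hz'
      have := hclS _ isCompact_singleton ((hθ1 n).trans hIcc) i z
        (hST _ ((hΘsub n).trans hIcc) i hi) hz
      exact Set.disjoint_left.1 (hACd n) (mem_iUnion.2 ⟨i, this⟩) hz'
    · rw [Set.disjoint_left]
      intro z hz hz'
      obtain ⟨i, hi⟩ := mem_iUnion.1 hz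
      have := hclS _ (hΘc n) ((hΘsub n).trans hIcc) i z
        (hST _ ((hθ1 n).trans hIcc) i hi) hz'
      exact Set.disjoint_left.1 (hACd n) hz (mem_iUnion.2 ⟨i, this⟩)
  choose U V hUo hVo hAU hCV hUV using hsep
  set R : ℕ → Set X := fun k => ⋂ n ∈ Iio k, V n with hR
  have hRo : ∀ k, IsOpen (R k) := fun k => (Set.finite_Iio k).isOpen_biInter fun n _ => hVo n
  have hAR : ∀ k, A k ⊆ R k := by
    intro k z hz
    simp only [hR, mem_iInter, mem_Iio]
    intro n hn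
    apply hCV n
    obtain ⟨i, hi⟩ := mem_iUnion.1 hz
    refine mem_iUnion.2 ⟨i, φ.sweep_mono ?_ subset_rfl hi⟩
    rintro t ht
    rw [mem_singleton_iff] at ht
    subst ht
    right
    exact ⟨k - (n + 1), by simp only; congr 1; omega⟩
  set Z : Set X := ⋂ m, closure (⋃ k, ⋃ (_ : m ≤ k), R k) with hZ
  have hZc : IsClosed Z := isClosed_iInter fun m => isClosed_closure
  have hAZ : ∀ n, Disjoint (A n) Z := by
    intro n
    rw [Set.disjoint_left]
    intro z hz hz'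
    have h1 : z ∈ closure (⋃ k, ⋃ (_ : n + 1 ≤ k), R k) := mem_iInter.1 hz' (n + 1)
    obtain ⟨y, hyU, hy⟩ := mem_closure_iff_nhds.1 h1 _ ((hUo n).mem_nhds (hAU n hz))
    simp only [mem_iUnion] at hy
    obtain ⟨k, hk, hyk⟩ := hy
    have : y ∈ V n := by
      simp only [hR, mem_iInter, mem_Iio] at hyk
      exact hyk n (by omega)
    exact Set.disjoint_left.1 (hUV n) hyU this
  set AA : Set X := ⋃ n, A n with hAA
  set B : Set X := Z \ closure AA with hB
  obtain ⟨O, O', hOo, hO'o, hAO, hBO', hOO'⟩ : ∃ O O' : Set X, IsOpen O ∧ IsOpen O' ∧ AA ⊆ O ∧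
      B ⊆ O' ∧ Disjoint O O' := by
    apply separated_open
    · rw [Set.disjoint_left]
      intro z hz hz'
      exact hz'.2 hz
    · rw [Set.disjoint_left]
      intro z hz hz'
      obtain ⟨n, hn⟩ := mem_iUnion.1 hz
      have : z ∈ Z := (closure_minimal (fun w hw => hw.1) hZc) hz'
      exact Set.disjoint_left.1 (hAZ n) hn this
  set R' : ℕ → Set X := fun k => R k ∩ O with hR'
  have hR'o : ∀ k, IsOpen (R' k) := fun k => (hRo k).inter hOo
  have hAR' : ∀ k, A k ⊆ R' k := fun k z hz => ⟨hAR k hz, hAO (mem_iUnion.2 ⟨k, hz⟩)⟩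
  -- compact neighbourhoods
  have hN : ∀ i, ∃ N : Set X, IsCompact N ∧ K i ⊆ interior N ∧
      N ⊆ (closure (⋃ j, ⋃ (_ : j ≠ i), T j))ᶜ := by
    intro i
    apply exists_compact_between (hK i) isClosed_closure.isOpen_compl
    intro x hx
    apply hTd.notMem_closure (i := i)
    exact φ.mem_sweep.2 ⟨0, ⟨by linarith, hη.le⟩, x, hx,
      φ.map_zero x (hdom i x hx 0 ⟨by linarith, hη.le⟩)⟩
  choose N hNc hKN hNT using hN
  have hNT' : ∀ i j, j ≠ i → ∀ z ∈ N i, z ∉ T j := by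
    intro i j hji z hz hzT
    exact hNT i hz (subset_closure (mem_iUnion.2 ⟨j, mem_iUnion.2 ⟨hji, hzT⟩⟩))
  have hfront : ∀ i, ∃ k0, ∀ k, k0 ≤ k → R' k ∩ frontier (N i) = ∅ := by
    intro i
    by_contra hcon
    push Not at hcon
    set D : ℕ → Set X := fun m => closure (⋃ k, ⋃ (_ : m ≤ k), R' k) ∩ frontier (N i) with hD
    have hfc : IsCompact (frontier (N i)) :=
      (hNc i).of_isClosed_subset isClosed_frontier (hNc i).isClosed.frontier_subset
    have hne : (⋂ m, D m).Nonempty := by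
      apply IsCompact.nonempty_iInter_of_sequence_nonempty_isCompact_isClosed D
      · intro m
        apply inter_subset_inter_left
        apply closure_mono
        exact iUnion_mono fun k => iUnion_mono' fun h => ⟨by omega, subset_rfl⟩
      · intro m
        obtain ⟨k, hk, z, hz⟩ := hcon m
        exact ⟨z, subset_closure (mem_iUnion.2 ⟨k, mem_iUnion.2 ⟨hk, hz.1⟩⟩), hz.2⟩
      · exact hfc.inter_left isClosed_closure
      · intro m
        exact isClosed_closure.inter isClosed_frontier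
    obtain ⟨c, hc⟩ := hne
    rw [mem_iInter] at hc
    have hcf : c ∈ frontier (N i) := (hc 0).2
    have hcN : c ∈ N i := (hNc i).isClosed.frontier_subset hcf
    have hcZ : c ∈ Z := by
      rw [hZ, mem_iInter]
      intro m
      refine closure_mono ?_ (hc m).1
      exact iUnion_mono fun k => iUnion_mono fun _ => inter_subset_left
    have hcO : c ∈ closure O := by
      refine closure_mono ?_ (hc 0).1
      exact iUnion_subset fun k => iUnion_subset fun _ => inter_subset_right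
    have hcA : c ∈ closure AA := by
      by_contra hnot
      have hcB : c ∈ O' := hBO' ⟨hcZ, hnot⟩
      obtain ⟨y, hy1, hy2⟩ := mem_closure_iff_nhds.1 hcO _ (hO'o.mem_nhds hcB)
      exact Set.disjoint_left.1 hOO' hy2 hy1
    -- c lies in the closure of the part with index i
    set Θ0 : Set ℝ := insert 0 (range τ) with hΘ0
    have hΘ0c : IsCompact Θ0 := hτlim.isCompact_insert_range
    have hΘ0s : Θ0 ⊆ Icc 0 η := by
      intro t ht
      rcases ht with rfl | ⟨k, rfl⟩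
      · exact ⟨le_rfl, hη.le⟩
      · exact ⟨(hτpos _).le, hτle _⟩
    have hcS : c ∈ S Θ0 i := by
      rw [← (hScomp Θ0 hΘ0c (hΘ0s.trans hIcc) i).isClosed.closure_eq, mem_closure_iff_nhds]
      intro W hW
      have hcl : (closure (⋃ j, ⋃ (_ : j ≠ i), T j))ᶜ ∈ 𝓝 c :=
        isClosed_closure.isOpen_compl.mem_nhds (hNT i hcN)
      obtain ⟨y, ⟨hyW, hyT⟩, hy⟩ := mem_closure_iff_nhds.1 hcA _ (inter_mem hW hcl)
      obtain ⟨n, hn⟩ := mem_iUnion.1 hy
      obtain ⟨j, hj⟩ := mem_iUnion.1 hn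
      have hji : j = i := by
        by_contra hne
        exact hyT (subset_closure (mem_iUnion.2 ⟨j, mem_iUnion.2
          ⟨hne, hST _ ((hθ1 n).trans hIcc) j hj⟩⟩))
      subst hji
      refine ⟨y, hyW, φ.sweep_mono ?_ subset_rfl hj⟩
      rintro t ht
      rw [mem_singleton_iff] at ht
      subst ht
      right
      exact ⟨n, rfl⟩
    obtain ⟨t, ht, x, hx, hxc⟩ := φ.mem_sweep.1 hcS
    rcases ht with rfl | ⟨n, rfl⟩
    · rw [φ.map_zero x (hdom i x hx 0 ⟨by linarith, hη.le⟩)] at hxc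
      subst hxc
      exact hcf.2 (hKN i hx)
    · have : c ∈ A n := mem_iUnion.2 ⟨i, φ.mem_sweep.2 ⟨τ n, rfl, x, hx, hxc⟩⟩
      exact Set.disjoint_left.1 (hAZ n) this hcZ
  have hinN : ∀ i, ∃ k0, ∀ k, k0 ≤ k → S {τ k} i ⊆ interior (N i) := by
    intro i
    have hO1 := φ.isOpen_pre (O := interior (N i)) isOpen_interior
    obtain ⟨δ, hδ, hδ'⟩ := exists_delta (hK i) hO1 (by
      intro x hx
      have h0 := hdom i x hx 0 ⟨by linarith, hη.le⟩
      refine ⟨h0, ?_⟩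
      change φ.map 0 x ∈ _
      rw [φ.map_zero x h0]
      exact hKN i hx)
    have h1 : ∀ᶠ k in atTop, τ k < δ := hτlim.eventually_lt_const hδ
    obtain ⟨k0, hk0⟩ := eventually_atTop.1 h1
    refine ⟨k0, fun k hk z hz => ?_⟩
    obtain ⟨t, ht, x, hx, rfl⟩ := φ.mem_sweep.1 hz
    rw [mem_singleton_iff] at ht
    subst ht
    exact (hδ' (τ k) (by rw [abs_of_pos (hτpos k)]; exact (hk0 k hk).le) x hx).2
  -- the classes
  set E : ℕ → Set ι := fun k => {i | R' k ∩ frontier (N i) = ∅ ∧ S {τ k} i ⊆ interior (N i)}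
    with hE
  have hEx : ∀ i, ∃ k, i ∈ E k := by
    intro i
    obtain ⟨k1, h1⟩ := hfront i
    obtain ⟨k2, h2⟩ := hinN i
    exact ⟨max k1 k2, h1 _ (le_max_left _ _), h2 _ (le_max_right _ _)⟩
  apply sigma_lemma hKd (fun k i => {x ∈ K i | i ∈ E k})
  · intro k i x hx
    exact hx.1
  · intro k i x hx hcl
    refine ⟨hx, ?_⟩
    obtain ⟨y, -, hy⟩ := mem_closure_iff_nhds.1 hcl univ univ_mem
    exact hy.2
  · intro i x hx
    obtain ⟨k, hk⟩ := hEx i
    exact mem_iUnion.2 ⟨k, hx, hk⟩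
  · intro k
    set Comp : ι → Set X := fun i => ⋃ a ∈ {a | a ∈ S {τ k} i ∧ i ∈ E k}, connectedComponentIn (R' k) a
      with hComp
    have hCo : ∀ i, IsOpen (Comp i) := fun i => isOpen_biUnion fun a _ => (hR'o k).connectedComponentIn
    refine ⟨fun i => {x | (τ k, x) ∈ φ.dom ∧ φ.map (τ k) x ∈ Comp i},
      fun i => φ.isOpen_pre_slice (hCo i) (τ k), ?_, ?_⟩
    · rintro i x ⟨hx, hi⟩
      have hmem : φ.map (τ k) x ∈ S {τ k} i := φ.mem_sweep.2 ⟨τ k, rfl, x, hx, rfl⟩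
      refine ⟨hdom i x hx _ ⟨by linarith [hτpos k], hτle k⟩, mem_biUnion ⟨hmem, hi⟩ ?_⟩
      exact mem_connectedComponentIn (hAR' k (mem_iUnion.2 ⟨i, hmem⟩))
    · intro i j hij
      rw [Set.disjoint_left]
      rintro x ⟨-, hx⟩ ⟨-, hx'⟩
      simp only [hComp, mem_iUnion] at hx hx'
      obtain ⟨a, ⟨ha, hi⟩, hwa⟩ := hx
      obtain ⟨b, ⟨hb, hj⟩, hwb⟩ := hx'
      have haR : a ∈ R' k := hAR' k (mem_iUnion.2 ⟨i, ha⟩)
      have hbR : b ∈ R' k := hAR' k (mem_iUnion.2 ⟨j, hb⟩)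
      have e1 := connectedComponentIn_eq hwa
      have e2 := connectedComponentIn_eq hwb
      have hb' : b ∈ connectedComponentIn (R' k) a := by
        rw [e1, ← e2]
        exact mem_connectedComponentIn hbR
      have hsub : connectedComponentIn (R' k) a ⊆ interior (N i) := by
        apply (isPreconnected_connectedComponentIn (F := R' k) (x := a)).subset_left_of_subset_union
          isOpen_interior (hNc i).isClosed.isOpen_compl
        · rw [Set.disjoint_left]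
          intro y hy hy'
          exact hy' (interior_subset hy)
        · intro y hy
          have hyR : y ∈ R' k := connectedComponentIn_subset _ _ hy
          by_cases hyN : y ∈ N i
          · left
            by_contra hyi
            have : y ∈ R' k ∩ frontier (N i) := ⟨hyR, subset_closure hyN, hyi⟩
            rw [hi.1] at this
            exact this
          · right
            exact hyN
        · exact ⟨a, mem_connectedComponentIn haR, hi.2 ha⟩
      exact hNT' i j (Ne.symm hij) b (interior_subset (hsub hb'))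
        (hST _ ((hθ1 k).trans hIcc) j hb)

end LocalFlow

end TF
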