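import Pool.Agent.TF.Flow

/-! Local sections of a local flow, compact families, Lindelöf families. -/

set_option autoImplicit false

namespace TF

open Set Topology Filter

namespace LocalFlow

variable {X : Type*} [TopologicalSpace X] (φ : LocalFlow X)

/-- the point is in the carrier of the flow and is not a rest point -/
def Moves (x : X) : Prop := (0, x) ∈ φ.dom ∧ ∃ t, (t, x) ∈ φ.dom ∧ φ.map t x ≠ x

theorem continuousOn_time (x : X) {J : Set ℝ} (h : ∀ s ∈ J, (s, x) ∈ φ.dom) :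
    ContinuousOn (fun s : ℝ => φ.map s x) J := by
  have h1 : ContinuousOn (fun s : ℝ => ((s, x) : ℝ × X)) J := by fun_prop
  exact φ.continuousOn_map.comp h1 h

theorem exists_eta {K : Set X} (hK : IsCompact K) {O : Set (ℝ × X)} (hO : IsOpen O)
    (h : ∀ x ∈ K, ((0 : ℝ), x) ∈ O) {ε : ℝ} (hε : 0 < ε) :
    ∃ m : ℕ, (1 : ℝ) / (m + 1) ≤ ε ∧ ∀ t : ℝ, |t| ≤ 2 * (1 / ((m : ℝ) + 1)) → ∀ x ∈ K, (t, x) ∈ O := by
  obtain ⟨δ, hδ, hδ'⟩ := exists_delta hK hO h
  obtain ⟨m, hm⟩ := exists_nat_one_div_lt (lt_min hε (half_pos hδ))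
  refine ⟨m, (hm.le.trans (min_le_left _ _)), fun t ht x hx => hδ' t ?_ x hx⟩
  have := hm.le.trans (min_le_right _ _)
  linarith

/-- Families of compact local sections expand. -/
theorem expands_sections [T5Space X] [LocallyCompactSpace X] [LocallyConnectedSpace X]
    {ι : Type*} {K : ι → Set X} (hK : ∀ i, IsCompact (K i)) (hd : RelDisc K)
    (hW : ∀ i, ∀ x ∈ K i, (0, x) ∈ φ.dom)
    (hsec : ∀ i, ∃ ε > 0, ∀ x ∈ K i, ∀ t, |t| ≤ ε → (t, x) ∈ φ.dom → φ.map t x ∈ K i → t = 0) :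
    Expands K := by
  classical
  set η : ℕ → ℝ := fun m => 1 / ((m : ℝ) + 1) with hη
  have hηpos : ∀ m, 0 < η m := fun m => by simp only [hη]; positivity
  set Good : ℕ → ι → Prop := fun m i =>
    (∀ x ∈ K i, ∀ t, |t| ≤ 2 * η m → (t, x) ∈ φ.dom) ∧
    (∀ x ∈ K i, ∀ t, |t| ≤ η m → φ.map t x ∈ K i → t = 0) ∧
    (∀ x ∈ K i, ∀ t, |t| ≤ 2 * η m → φ.map t x ∉ closure (⋃ j, ⋃ (_ : j ≠ i), K j)) with hGood
  have hex : ∀ i, ∃ m, Good m i := by
    intro i
    obtain ⟨ε, hε, hsec'⟩ := hsec i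
    obtain ⟨m, hm, hm'⟩ := exists_eta (hK i)
      (φ.isOpen_pre (O := (closure (⋃ j, ⋃ (_ : j ≠ i), K j))ᶜ) isClosed_closure.isOpen_compl)
      (by
        intro x hx
        refine ⟨hW i x hx, ?_⟩
        change φ.map 0 x ∉ _
        rw [φ.map_zero x (hW i x hx)]
        exact hd.notMem_closure hx) hε
    refine ⟨m, fun x hx t ht => (hm' t ht x hx).1, fun x hx t ht hxt => ?_,
      fun x hx t ht => (hm' t ht x hx).2⟩
    refine hsec' x hx t (ht.trans hm) (hm' t ?_ x hx).1 hxt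
    have := hηpos m
    linarith
  apply sigma_lemma hd (fun m i => {x ∈ K i | Good m i})
  · intro m i x hx
    exact hx.1
  · intro m i x hx hcl
    obtain ⟨y, -, hy⟩ := mem_closure_iff_nhds.1 hcl univ univ_mem
    exact ⟨hx, hy.2⟩
  · intro i x hx
    obtain ⟨m, hm⟩ := hex i
    exact mem_iUnion.2 ⟨m, hx, hm⟩
  · intro m
    apply φ.expands_uniform (η := η m) _ (hηpos m)
    · rintro i x ⟨hx, hg⟩ t ht
      exact hg.1 x hx t ht
    · rintro i x ⟨hx, hg⟩ t ht hxt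
      exact hg.2.1 x hx t ht hxt.1
    · rintro i x ⟨hx, hg⟩ t ht hcl
      refine hg.2.2 x hx t ht (closure_mono ?_ hcl)
      exact iUnion_mono fun j => iUnion_mono fun _ y hy => hy.1
    · intro i
      by_cases hg : Good m i
      · have : {x ∈ K i | Good m i} = K i := by
          ext x; exact ⟨fun h => h.1, fun h => ⟨h, hg⟩⟩
        rw [this]; exact hK i
      · have : {x ∈ K i | Good m i} = ∅ := by
          ext x; exact ⟨fun h => hg h.2, fun h => h.elim⟩
        rw [this]; exact isCompact_empty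

theorem section_point [T2Space X] {x : X} (hx : φ.Moves x) :
    ∃ ε > 0, ∀ t, |t| ≤ ε → (t, x) ∈ φ.dom → φ.map t x = x → t = 0 := by
  obtain ⟨h0, t0, ht0, hne⟩ := hx
  let H : AddSubgroup ℝ :=
    { carrier := {t | (t, x) ∈ φ.dom ∧ φ.map t x = x}
      add_mem' := by
        rintro s t ⟨hs, hs'⟩ ⟨ht, ht'⟩
        have h1 : (s + t, x) ∈ φ.dom := by
          rw [← φ.mem_shift s x hs t, hs']
          exact ht
        refine ⟨h1, ?_⟩
        rw [← φ.map_add s t x hs h1, hs', ht']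
      zero_mem' := ⟨h0, φ.map_zero x h0⟩
      neg_mem' := by
        rintro t ⟨ht, ht'⟩
        have h1 := φ.neg_mem ht
        have h2 := φ.map_neg ht
        rw [ht'] at h1 h2
        exact ⟨h1, h2⟩ }
  have hmem : ∀ t, t ∈ H ↔ (t, x) ∈ φ.dom ∧ φ.map t x = x := fun t => Iff.rfl
  rcases AddSubgroup.dense_or_cyclic H with hd | ⟨a, ha⟩
  · exfalso
    have hop := φ.isOpen_pre_time (O := {x}ᶜ) isClosed_singleton.isOpen_compl x
    obtain ⟨s, hs1, hs2⟩ := hd.inter_open_nonempty _ hop ⟨t0, ht0, hne⟩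
    exact hs1.2 ((hmem s).1 hs2).2
  · by_cases ha0 : a = 0
    · refine ⟨1, one_pos, fun t _ ht ht' => ?_⟩
      have : t ∈ H := ⟨ht, ht'⟩
      rw [ha, ha0, AddSubgroup.closure_singleton_zero] at this
      simpa using this
    · refine ⟨|a| / 2, by positivity, fun t htε ht ht' => ?_⟩
      have : t ∈ H := ⟨ht, ht'⟩
      rw [ha, AddSubgroup.mem_closure_singleton] at this
      obtain ⟨n, rfl⟩ := this
      by_cases hn : n = 0
      · simp [hn]
      · exfalso
        have h1 : (1 : ℝ) ≤ |(n : ℝ)| := by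
          have := Int.one_le_abs hn
          exact_mod_cast this
        rw [zsmul_eq_mul, abs_mul] at htε
        have : 0 < |a| := abs_pos.2 ha0
        nlinarith

/-- Local sections exist at every moving point. -/
theorem flowBox [T5Space X] [LocallyCompactSpace X] {x : X} (hx : φ.Moves x) {δ₀ : ℝ}
    (hδ₀ : 0 < δ₀) :
    ∃ (N S : Set X) (δ : ℝ), IsCompact N ∧ N ∈ 𝓝 x ∧ IsCompact S ∧ 0 < δ ∧ δ ≤ δ₀ ∧
      (∀ y ∈ N, ∃ t, |t| ≤ δ ∧ (t, y) ∈ φ.dom ∧ φ.map t y ∈ S) ∧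
      (∀ z ∈ S, (0, z) ∈ φ.dom) ∧
      (∀ z ∈ S, ∀ t, |t| ≤ δ → (t, z) ∈ φ.dom → φ.map t z ∈ S → t = 0) := by
  obtain ⟨ε, hε, hsec⟩ := φ.section_point hx
  obtain ⟨h0, -⟩ := hx
  obtain ⟨σ, hσ, hσ'⟩ := exists_delta (isCompact_singleton (x := x)) φ.isOpen_dom
    (by intro y hy; rw [mem_singleton_iff] at hy; subst hy; exact h0)
  have hσx : ∀ t, |t| ≤ σ → (t, x) ∈ φ.dom := fun t ht => hσ' t ht x rfl
  set τ : ℝ := min (σ / 2) ε with hτ
  have hτpos : 0 < τ := lt_min (half_pos hσ) hε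
  have hτσ : τ ≤ σ / 2 := min_le_left _ _
  have hτε : τ ≤ ε := min_le_right _ _
  have hτdom : (τ, x) ∈ φ.dom := hσx τ (by rw [abs_of_pos hτpos]; linarith)
  have hne : φ.map τ x ≠ x := fun h =>
    hτpos.ne' (hsec τ (by rw [abs_of_pos hτpos]; exact hτε) hτdom h)
  obtain ⟨G1, hxG1, hG1o, G0, hxG0, hG0o, hGd⟩ := exists_open_nhds_disjoint_closure hne
  obtain ⟨f, hf0, hf1, hf01⟩ := exists_continuous_zero_one_of_isClosed
    (isClosed_closure (s := G0)) (isClosed_closure (s := G1)) hGd.symm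
  have hf0' : ∀ y ∈ G0, f y = 0 := fun y hy => hf0 (subset_closure hy)
  have hf1' : ∀ y ∈ G1, f y = 1 := fun y hy => hf1 (subset_closure hy)
  -- the time function
  set F : X → ℝ := fun y => ∫ s in (0 : ℝ)..τ, f (φ.map s y) with hF
  have hFc : ∀ y0, (∀ s ∈ Icc 0 τ, (s, y0) ∈ φ.dom) → ContinuousAt F y0 := by
    intro y0 hy0
    rw [Metric.continuousAt_iff']
    intro r hr
    set r' : ℝ := r / (2 * (τ + 1)) with hr'
    have hr'pos : 0 < r' := by positivity
    -- the set of (s, y) with small difference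
    have hy0c : ContinuousOn (fun s : ℝ => f (φ.map s y0)) {s | (s, y0) ∈ φ.dom} := by
      exact f.continuous.comp_continuousOn (φ.continuousOn_time y0 fun s hs => hs)
    have hopen : ∀ s0 ∈ Icc 0 τ, ∃ u v : Set _, IsOpen u ∧ IsOpen v ∧ s0 ∈ u ∧ y0 ∈ v ∧
        ∀ s ∈ u, ∀ y ∈ v, (s, y) ∈ φ.dom ∧ |f (φ.map s y) - f (φ.map s y0)| < r' := by
      intro s0 hs0
      have hc0 := f.continuous.continuousAt (x := φ.map s0 y0)
      have hO : IsOpen {w : X | |f w - f (φ.map s0 y0)| < r' / 2} :=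
        isOpen_lt (by fun_prop) continuous_const
      have hpre := φ.isOpen_pre hO
      have hm : ((s0, y0) : ℝ × X) ∈ {p : ℝ × X | p ∈ φ.dom ∧ φ.map p.1 p.2 ∈
          {w : X | |f w - f (φ.map s0 y0)| < r' / 2}} := by
        refine ⟨hy0 s0 hs0, ?_⟩
        change |f (φ.map s0 y0) - f (φ.map s0 y0)| < r' / 2
        rw [sub_self, abs_zero]
        positivity
      obtain ⟨u, v, hu, hv, hsu, hyv, huv⟩ := isOpen_prod_iff.1 hpre s0 y0 hm
      refine ⟨u, v, hu, hv, hsu, hyv, fun s hs y hy => ?_⟩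
      have h1 := huv (mk_mem_prod hs hy)
      have h2 := huv (mk_mem_prod hs hyv)
      refine ⟨h1.1, ?_⟩
      have h1' : |f (φ.map s y) - f (φ.map s0 y0)| < r' / 2 := h1.2
      have h2' : |f (φ.map s y0) - f (φ.map s0 y0)| < r' / 2 := h2.2
      rw [abs_lt] at h1' h2' ⊢
      constructor <;> linarith [h1'.1, h1'.2, h2'.1, h2'.2]
    choose! u v hu hv hsu hyv huv using hopen
    obtain ⟨t, ht, htc⟩ := (isCompact_Icc (a := (0 : ℝ)) (b := τ)).elim_nhds_subcover u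
      (fun s hs => (hu s hs).mem_nhds (hsu s hs))
    have hmem : (⋂ s ∈ t, v s) ∈ 𝓝 y0 := by
      rw [biInter_finset_mem]
      exact fun s hs => (hv s (ht s hs)).mem_nhds (hyv s (ht s hs))
    filter_upwards [hmem] with y hy
    have hall : ∀ s ∈ Icc 0 τ, (s, y) ∈ φ.dom ∧ |f (φ.map s y) - f (φ.map s y0)| < r' := by
      intro s hs
      obtain ⟨s', hs', hss'⟩ := mem_iUnion₂.1 (htc hs)
      exact huv s' (ht s' hs') s hss' y (mem_iInter₂.1 hy s' hs')
    have hcy : ContinuousOn (fun s : ℝ => f (φ.map s y)) (Icc 0 τ) := by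
      exact f.continuous.comp_continuousOn (φ.continuousOn_time y fun s hs => (hall s hs).1)
    have hcy0 : ContinuousOn (fun s : ℝ => f (φ.map s y0)) (Icc 0 τ) :=
      hy0c.mono fun s hs => hy0 s hs
    have hi1 : IntervalIntegrable (fun s : ℝ => f (φ.map s y)) MeasureTheory.volume 0 τ := by
      apply ContinuousOn.intervalIntegrable
      rwa [uIcc_of_le hτpos.le]
    have hi2 : IntervalIntegrable (fun s : ℝ => f (φ.map s y0)) MeasureTheory.volume 0 τ := by
      apply ContinuousOn.intervalIntegrable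
      rwa [uIcc_of_le hτpos.le]
    rw [dist_eq_norm]
    simp only [hF]
    rw [← intervalIntegral.integral_sub hi1 hi2]
    have hb := intervalIntegral.norm_integral_le_of_norm_le_const (a := 0) (b := τ) (C := r')
      (f := fun s => f (φ.map s y) - f (φ.map s y0)) (by
        intro s hs
        rw [uIoc_of_le hτpos.le] at hs
        rw [Real.norm_eq_abs]
        exact (hall s ⟨hs.1.le, hs.2⟩).2.le)
    refine hb.trans_lt ?_
    rw [sub_zero, abs_of_pos hτpos, hr', div_mul_eq_mul_div, div_lt_iff₀ (by positivity)]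
    nlinarith
  -- neighbourhoods in time
  obtain ⟨ε1, hε1, hε1τ, hE0, hE1⟩ : ∃ ε1 > 0, ε1 ≤ τ ∧ (∀ t, |t| ≤ ε1 → φ.map t x ∈ G0) ∧
      (∀ t, |t| ≤ ε1 → φ.map (τ + t) x ∈ G1) := by
    have ho0 := φ.isOpen_pre_time hG0o x
    have ho1 := φ.isOpen_pre_time hG1o x
    obtain ⟨a, ha, hab⟩ := Metric.isOpen_iff.1 ho0 0 ⟨h0, by
      change φ.map 0 x ∈ G0
      rw [φ.map_zero x h0]; exact hxG0⟩
    obtain ⟨b, hb, hbb⟩ := Metric.isOpen_iff.1 ho1 τ ⟨hτdom, hxG1⟩
    refine ⟨min τ (min (a / 2) (b / 2)), by positivity, min_le_left _ _, fun t ht => ?_,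
      fun t ht => ?_⟩
    · have h1 : |t| ≤ a / 2 := ht.trans ((min_le_right _ _).trans (min_le_left _ _))
      exact (hab (by rw [Metric.mem_ball, Real.dist_eq, sub_zero]; linarith)).2
    · have h1 : |t| ≤ b / 2 := ht.trans ((min_le_right _ _).trans (min_le_right _ _))
      exact (hbb (by rw [Metric.mem_ball, Real.dist_eq, add_sub_cancel_left]; linarith)).2
  -- the good neighbourhood of x
  have hJ : Icc (-τ) (2 * τ) ×ˢ {x} ⊆ φ.dom := by
    rintro ⟨t, y⟩ ⟨ht, hy⟩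
    rw [mem_singleton_iff] at hy; subst hy
    exact hσx t (by rw [abs_le]; constructor <;> linarith [ht.1, ht.2])
  have hJ0 : Icc (-ε1) ε1 ×ˢ {x} ⊆ {p : ℝ × X | p ∈ φ.dom ∧ φ.map p.1 p.2 ∈ G0} := by
    rintro ⟨t, y⟩ ⟨ht, hy⟩
    rw [mem_singleton_iff] at hy; subst hy
    exact ⟨hσx t (by rw [abs_le]; constructor <;> linarith [ht.1, ht.2]), hE0 t (abs_le.2 ht)⟩
  have hJ1 : Icc (τ - ε1) (τ + ε1) ×ˢ {x} ⊆ {p : ℝ × X | p ∈ φ.dom ∧ φ.map p.1 p.2 ∈ G1} := by
    rintro ⟨t, y⟩ ⟨ht, hy⟩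
    rw [mem_singleton_iff] at hy; subst hy
    refine ⟨hσx t (by rw [abs_le]; constructor <;> linarith [ht.1, ht.2]), ?_⟩
    have := hE1 (t - τ) (by rw [abs_le]; constructor <;> linarith [ht.1, ht.2])
    rwa [add_sub_cancel] at this
  obtain ⟨u1, v1, -, hv1, hu1, hxv1, huv1⟩ := generalized_tube_lemma isCompact_Icc
    (isCompact_singleton (x := x)) φ.isOpen_dom hJ
  obtain ⟨u2, v2, -, hv2, hu2, hxv2, huv2⟩ := generalized_tube_lemma isCompact_Icc
    (isCompact_singleton (x := x)) (φ.isOpen_pre hG0o) hJ0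
  obtain ⟨u3, v3, -, hv3, hu3, hxv3, huv3⟩ := generalized_tube_lemma isCompact_Icc
    (isCompact_singleton (x := x)) (φ.isOpen_pre hG1o) hJ1
  have hd1 : ∀ y ∈ v1, ∀ t ∈ Icc (-τ) (2 * τ), (t, y) ∈ φ.dom := fun y hy t ht =>
    huv1 (mk_mem_prod (hu1 ht) hy)
  have hd2 : ∀ y ∈ v2, ∀ t ∈ Icc (-ε1) ε1, f (φ.map t y) = 0 := fun y hy t ht =>
    hf0' _ (huv2 (mk_mem_prod (hu2 ht) hy)).2
  have hd3 : ∀ y ∈ v3, ∀ t ∈ Icc (τ - ε1) (τ + ε1), f (φ.map t y) = 1 := fun y hy t ht =>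
    hf1' _ (huv3 (mk_mem_prod (hu3 ht) hy)).2
  have hshift : ∀ y ∈ v1 ∩ v2 ∩ v3, ∀ t, |t| ≤ ε1 → F (φ.map t y) = F y + t := by
    rintro y ⟨⟨hy1, hy2⟩, hy3⟩ t ht
    have ht' := abs_le.1 ht
    have htdom : (t, y) ∈ φ.dom := hd1 y hy1 t ⟨by linarith, by linarith⟩
    have hcont : ContinuousOn (fun s : ℝ => f (φ.map s y)) (Icc (-τ) (2 * τ)) := by
      exact f.continuous.comp_continuousOn (φ.continuousOn_time y fun s hs => hd1 y hy1 s hs)
    have hint : ∀ a b, a ∈ Icc (-τ) (2 * τ) → b ∈ Icc (-τ) (2 * τ) →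
        IntervalIntegrable (fun s : ℝ => f (φ.map s y)) MeasureTheory.volume a b := by
      intro a b ha hb
      apply ContinuousOn.intervalIntegrable
      exact hcont.mono (uIcc_subset_Icc ha hb)
    have e1 : F (φ.map t y) = ∫ s in (0 : ℝ)..τ, f (φ.map (t + s) y) := by
      simp only [hF]
      apply intervalIntegral.integral_congr
      intro s hs
      rw [uIcc_of_le hτpos.le] at hs
      simp only
      rw [φ.map_add t s y htdom (hd1 y hy1 _ ⟨by linarith [hs.1], by linarith [hs.2]⟩)]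
    have e2 : (∫ s in (0 : ℝ)..τ, f (φ.map (t + s) y)) = ∫ s in (t + 0)..(t + τ), f (φ.map s y) :=
      intervalIntegral.integral_comp_add_left (fun s => f (φ.map s y)) t
    have m0 : (0 : ℝ) ∈ Icc (-τ) (2 * τ) := ⟨by linarith, by linarith⟩
    have mτ : τ ∈ Icc (-τ) (2 * τ) := ⟨by linarith, by linarith⟩
    have mt : t ∈ Icc (-τ) (2 * τ) := ⟨by linarith, by linarith⟩
    have mtτ : t + τ ∈ Icc (-τ) (2 * τ) := ⟨by linarith, by linarith⟩
    have e3 : (∫ s in t..(t + τ), f (φ.map s y)) = (∫ s in t..(0 : ℝ), f (φ.map s y)) +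
        ((∫ s in (0 : ℝ)..τ, f (φ.map s y)) + ∫ s in τ..(t + τ), f (φ.map s y)) := by
      rw [intervalIntegral.integral_add_adjacent_intervals (hint _ _ m0 mτ) (hint _ _ mτ mtτ),
        intervalIntegral.integral_add_adjacent_intervals (hint _ _ mt m0) (hint _ _ m0 mtτ)]
    have e4 : (∫ s in t..(0 : ℝ), f (φ.map s y)) = 0 := by
      have : (∫ s in t..(0 : ℝ), f (φ.map s y)) = ∫ s in t..(0 : ℝ), (0 : ℝ) := by
        apply intervalIntegral.integral_congr
        intro s hs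
        simp only
        apply hd2 y hy2
        have hsub : uIcc t 0 ⊆ Icc (-ε1) ε1 := uIcc_subset_Icc ⟨ht'.1, ht'.2⟩
          ⟨by linarith, hε1.le⟩
        exact hsub hs
      rw [this]
      simp
    have e5 : (∫ s in τ..(t + τ), f (φ.map s y)) = t := by
      have : (∫ s in τ..(t + τ), f (φ.map s y)) = ∫ s in τ..(t + τ), (1 : ℝ) := by
        apply intervalIntegral.integral_congr
        intro s hs
        simp only
        apply hd3 y hy3
        have hsub : uIcc τ (t + τ) ⊆ Icc (τ - ε1) (τ + ε1) := uIcc_subset_Icc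
          ⟨by linarith, by linarith⟩ ⟨by linarith, by linarith⟩
        exact hsub hs
      rw [this]
      simp
    rw [e1, e2, add_zero, e3, e4, e5]
    ring
  -- choice of δ and N
  set δ : ℝ := min δ₀ (ε1 / 2) with hδ
  have hδpos : 0 < δ := lt_min hδ₀ (half_pos hε1)
  have hδε : 2 * δ ≤ ε1 := by
    have : δ ≤ ε1 / 2 := min_le_right _ _
    linarith
  set c : ℝ := F x with hc
  have hFx : ContinuousAt F x := hFc x fun s hs =>
    hσx s (by rw [abs_le]; constructor <;> linarith [hs.1, hs.2])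
  have hnear : {y | |F y - c| < δ} ∈ 𝓝 x := by
    have := Metric.continuousAt_iff'.1 hFx δ hδpos
    filter_upwards [this] with y hy
    rwa [Real.dist_eq] at hy
  have hvn : v1 ∩ v2 ∩ v3 ∈ 𝓝 x := inter_mem (inter_mem (hv1.mem_nhds (hxv1 rfl))
    (hv2.mem_nhds (hxv2 rfl))) (hv3.mem_nhds (hxv3 rfl))
  obtain ⟨N, hNx, hNsub, hNc⟩ := local_compact_nhds (inter_mem hvn hnear)
  have hδdom : ∀ y ∈ N, ∀ t ∈ Icc (-δ) δ, (t, y) ∈ φ.dom := by
    intro y hy t ht
    exact hd1 y (hNsub hy).1.1.1 t ⟨by linarith [ht.1], by linarith [ht.2]⟩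
  set S : Set X := φ.sweep (Icc (-δ) δ) N ∩ F ⁻¹' {c} with hS
  have hsw : IsCompact (φ.sweep (Icc (-δ) δ) N) :=
    φ.isCompact_sweep isCompact_Icc hNc fun t ht y hy => hδdom y hy t ht
  have hFsw : ContinuousOn F (φ.sweep (Icc (-δ) δ) N) := by
    intro z hz
    obtain ⟨s, hs, y, hy, rfl⟩ := φ.mem_sweep.1 hz
    apply (hFc _ _).continuousWithinAt
    intro s' hs'
    rw [φ.mem_shift s y (hδdom y hy s hs) s']
    exact hd1 y (hNsub hy).1.1.1 _ ⟨by linarith [hs.1, hs'.1], by linarith [hs.2, hs'.2]⟩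
  have hSc : IsCompact S :=
    hsw.of_isClosed_subset (hFsw.preimage_isClosed_of_isClosed hsw.isClosed isClosed_singleton)
      inter_subset_left
  refine ⟨N, S, δ, hNc, hNx, hSc, hδpos, min_le_left _ _, ?_, ?_, ?_⟩
  · intro y hy
    have hyn : |F y - c| < δ := (hNsub hy).2
    have ht : |c - F y| ≤ δ := by rw [abs_sub_comm]; exact hyn.le
    refine ⟨c - F y, ht, hδdom y hy _ (abs_le.1 ht), ?_, ?_⟩
    · exact φ.mem_sweep.2 ⟨_, abs_le.1 ht, y, hy, rfl⟩
    · rw [mem_preimage, mem_singleton_iff,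
        hshift y (hNsub hy).1 _ (ht.trans (by linarith))]
      ring
  · rintro z ⟨hz, -⟩
    obtain ⟨s, hs, y, hy, rfl⟩ := φ.mem_sweep.1 hz
    rw [φ.mem_shift s y (hδdom y hy s hs) 0, add_zero]
    exact hδdom y hy s hs
  · rintro z ⟨hz, hz'⟩ t ht htz hzt
    obtain ⟨s, hs, y, hy, rfl⟩ := φ.mem_sweep.1 hz
    have hsd := hδdom y hy s hs
    have h1 : (s + t, y) ∈ φ.dom := (φ.mem_shift s y hsd t).1 htz
    have h2 : F (φ.map s y) = F y + s :=
      hshift y (hNsub hy).1 s ((abs_le.2 hs).trans (by linarith))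
    have h3 : F (φ.map t (φ.map s y)) = F y + (s + t) := by
      rw [φ.map_add s t y hsd h1]
      apply hshift y (hNsub hy).1
      have := abs_add_le s t
      have := abs_le.2 hs
      linarith
    have h4 : F (φ.map s y) = c := hz'
    have h5 : F (φ.map t (φ.map s y)) = c := hzt.2
    linarith

end LocalFlow

end TF
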