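import Pool.Agent.TF.Sigma

/-! Families of compact sets in hereditarily normal spaces: expansion near a compact subset. -/

set_option autoImplicit false

namespace TF

open Set Topology Filter

variable {X : Type*} [TopologicalSpace X]

/-- Separation of two unions over a relatively discrete family. -/
theorem RelDisc.separate [CompletelyNormalSpace X] {ι : Type*} {K : ι → Set X} (hd : RelDisc K)
    {A B : ι → Set X} (hA : ∀ i, A i ⊆ K i) (hB : ∀ i, B i ⊆ K i)
    (hAc : ∀ i, IsClosed (A i)) (hBc : ∀ i, IsClosed (B i)) (hAB : ∀ i, Disjoint (A i) (B i)) :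
    ∃ U V : Set X, IsOpen U ∧ IsOpen V ∧ (⋃ i, A i) ⊆ U ∧ (⋃ i, B i) ⊆ V ∧ Disjoint U V := by
  have key : ∀ (A B : ι → Set X), (∀ i, A i ⊆ K i) → (∀ i, B i ⊆ K i) → (∀ i, IsClosed (A i)) →
      (∀ i, Disjoint (A i) (B i)) → Disjoint (closure (⋃ i, A i)) (⋃ i, B i) := by
    intro A B hA hB hAc hAB
    rw [Set.disjoint_left]
    intro x hx hxB
    obtain ⟨i, hi⟩ := mem_iUnion.1 hxB
    obtain ⟨V, hV, hj⟩ := hd i x (hB i hi)
    have : x ∈ closure (A i) := by
      rw [mem_closure_iff_nhds]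
      intro W hW
      obtain ⟨y, ⟨hyW, hyV⟩, hy⟩ := mem_closure_iff_nhds.1 hx (W ∩ V) (inter_mem hW hV)
      obtain ⟨j, hyj⟩ := mem_iUnion.1 hy
      have : j = i := hj j ⟨y, hyV, hA j hyj⟩
      subst this
      exact ⟨y, hyW, hyj⟩
    rw [(hAc i).closure_eq] at this
    exact Set.disjoint_left.1 (hAB i) this hi
  apply separated_open
  · exact key A B hA hB hAc hAB
  · exact (key B A hB hA hBc fun i => (hAB i).symm).symm

/-- **Expansion near a compact subset.** `K i` is a relatively discrete family of compact sets in a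
hereditarily normal, locally compact, locally connected space, `H i` is a closed subset of `K i`
whose complement in `K i` is covered by countably many closed sets which miss `H i`. Then the sets
`K i \ H i` expand near `H i`, and the expansion is discrete at all points which have a
neighbourhood meeting at most one of the sets `K i`. -/
theorem sector [T2Space X] [CompletelyNormalSpace X] [LocallyCompactSpace X]
    [LocallyConnectedSpace X] {ι : Type*} {K H : ι → Set X} (hK : ∀ i, IsCompact (K i))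
    (hd : RelDisc K) (hHc : ∀ i, IsClosed (H i)) (hHK : ∀ i, H i ⊆ K i)
    (hC : ∀ i, ∃ C : ℕ → Set X, (∀ n, IsClosed (C n)) ∧ (∀ n, Disjoint (C n) (H i)) ∧
      K i \ H i ⊆ ⋃ n, C n) :
    ∃ N V : ι → Set X, (∀ i, IsOpen (N i)) ∧ (∀ i, H i ⊆ N i) ∧ (∀ i, IsOpen (V i)) ∧
      (∀ i, (K i ∩ N i) \ H i ⊆ V i) ∧ (∀ i j, i ≠ j → Disjoint (V i) (V j)) ∧
      ∀ x, (∃ W ∈ 𝓝 x, ∀ i j, (W ∩ K i).Nonempty → (W ∩ K j).Nonempty → i = j) →
        ∃ W ∈ 𝓝 x, ∀ i j, (W ∩ V i).Nonempty → (W ∩ V j).Nonempty → i = j := by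
  classical
  choose C hCc hCH hCK using hC
  -- neighbourhoods of the layers
  have hsep : ∀ n, ∃ U V : Set X, IsOpen U ∧ IsOpen V ∧ (⋃ i, K i ∩ C i n) ⊆ U ∧ (⋃ i, H i) ⊆ V ∧
      Disjoint U V := fun n =>
    hd.separate (fun i => inter_subset_left) hHK (fun i => (hK i).isClosed.inter (hCc i n)) hHc
      fun i => (hCH i n).mono_left inter_subset_right
  choose U U' hUo hU'o hCU hHU' hUU' using hsep
  set UU : ℕ → Set X := fun m => ⋃ k ∈ Iic m, U k with hUU
  have hUUo : ∀ m, IsOpen (UU m) := fun m => isOpen_biUnion fun k _ => hUo k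
  have hUUmono : ∀ m n, m ≤ n → UU m ⊆ UU n := fun m n h =>
    biUnion_subset_biUnion_left fun k hk => le_trans hk h
  set AA : Set X := ⋃ i, K i \ H i with hAA
  have hAAU : AA ⊆ ⋃ n, U n := by
    intro x hx
    obtain ⟨i, hi⟩ := mem_iUnion.1 hx
    obtain ⟨n, hn⟩ := mem_iUnion.1 (hCK i hi)
    exact mem_iUnion.2 ⟨n, hCU n (mem_iUnion.2 ⟨i, hi.1, hn⟩)⟩
  set Z : Set X := (⋃ n, U n)ᶜ with hZ
  have hZc : IsClosed Z := (isOpen_iUnion hUo).isClosed_compl
  obtain ⟨O, O', hOo, hO'o, hAO, hBO', hOO'⟩ : ∃ O O' : Set X, IsOpen O ∧ IsOpen O' ∧ AA ⊆ O ∧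
      Z \ closure AA ⊆ O' ∧ Disjoint O O' := by
    apply separated_open
    · rw [Set.disjoint_left]
      exact fun x hx hx' => hx'.2 hx
    · rw [Set.disjoint_left]
      intro x hx hx'
      have : x ∈ Z := (closure_minimal (fun w hw => hw.1) hZc) hx'
      exact this (hAAU hx)
  set R : ℕ → Set X := fun m => O ∩ (closure (UU m))ᶜ with hR
  have hRo : ∀ m, IsOpen (R m) := fun m => hOo.inter isClosed_closure.isOpen_compl
  have hRanti : ∀ m n, m ≤ n → R n ⊆ R m := fun m n h x hx =>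
    ⟨hx.1, fun h' => hx.2 (closure_mono (hUUmono m n h) h')⟩
  have hRcl : ∀ m, closure (R m) ⊆ (UU m)ᶜ := fun m =>
    closure_minimal (fun x hx h' => hx.2 (subset_closure h')) (hUUo m).isClosed_compl
  -- compact neighbourhoods
  have hN : ∀ i, ∃ N : Set X, IsCompact N ∧ H i ⊆ interior N ∧
      N ⊆ (closure (⋃ j, ⋃ (_ : j ≠ i), K j))ᶜ := by
    intro i
    apply exists_compact_between ((hK i).of_isClosed_subset (hHc i) (hHK i))
      isClosed_closure.isOpen_compl
    intro x hx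
    exact hd.notMem_closure (hHK i hx)
  choose N hNc hHN hNK using hN
  have hNK' : ∀ i j, j ≠ i → ∀ z ∈ N i, z ∉ K j := by
    intro i j hji z hz hzT
    exact hNK i hz (subset_closure (mem_iUnion.2 ⟨j, mem_iUnion.2 ⟨hji, hzT⟩⟩))
  have hfront : ∀ i, ∃ k0, ∀ k, k0 ≤ k → R k ∩ frontier (N i) = ∅ := by
    intro i
    by_contra hcon
    push Not at hcon
    set D : ℕ → Set X := fun m => closure (R m) ∩ frontier (N i) with hD
    have hfc : IsCompact (frontier (N i)) :=
      (hNc i).of_isClosed_subset isClosed_frontier (hNc i).isClosed.frontier_subset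
    have hne : (⋂ m, D m).Nonempty := by
      apply IsCompact.nonempty_iInter_of_sequence_nonempty_isCompact_isClosed D
      · intro m
        exact inter_subset_inter_left _ (closure_mono (hRanti m (m + 1) (by omega)))
      · intro m
        obtain ⟨k, hk, z, hz⟩ := hcon m
        exact ⟨z, subset_closure (hRanti m k hk hz.1), hz.2⟩
      · exact hfc.inter_left isClosed_closure
      · intro m
        exact isClosed_closure.inter isClosed_frontier
    obtain ⟨c, hc⟩ := hne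
    rw [mem_iInter] at hc
    have hcf : c ∈ frontier (N i) := (hc 0).2
    have hcN : c ∈ N i := (hNc i).isClosed.frontier_subset hcf
    have hcZ : c ∈ Z := by
      intro h
      obtain ⟨n, hn⟩ := mem_iUnion.1 h
      exact hRcl n (hc n).1 (mem_iUnion₂.2 ⟨n, mem_Iic.2 le_rfl, hn⟩)
    have hcO : c ∈ closure O := closure_mono inter_subset_left (hc 0).1
    have hcA : c ∈ closure AA := by
      by_contra hnot
      have hcB : c ∈ O' := hBO' ⟨hcZ, hnot⟩
      obtain ⟨y, hy1, hy2⟩ := mem_closure_iff_nhds.1 hcO _ (hO'o.mem_nhds hcB)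
      exact Set.disjoint_left.1 hOO' hy2 hy1
    have hcK : c ∈ K i := by
      rw [← (hK i).isClosed.closure_eq, mem_closure_iff_nhds]
      intro W hW
      have hcl : (closure (⋃ j, ⋃ (_ : j ≠ i), K j))ᶜ ∈ 𝓝 c :=
        isClosed_closure.isOpen_compl.mem_nhds (hNK i hcN)
      obtain ⟨y, ⟨hyW, hyT⟩, hy⟩ := mem_closure_iff_nhds.1 hcA _ (inter_mem hW hcl)
      obtain ⟨j, hj⟩ := mem_iUnion.1 hy
      have hji : j = i := by
        by_contra hne
        exact hyT (subset_closure (mem_iUnion.2 ⟨j, mem_iUnion.2 ⟨hne, hj.1⟩⟩))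
      subst hji
      exact ⟨y, hyW, hj.1⟩
    have hcH : c ∈ H i := by
      by_contra h
      exact hcZ (hAAU (mem_iUnion.2 ⟨i, hcK, h⟩))
    exact hcf.2 (hHN i hcH)
  choose m hm using hfront
  -- connected subsets of `R k` which meet the interior of `N i`
  have hconn : ∀ i k (Q : Set X), m i ≤ k → IsPreconnected Q → Q ⊆ R k →
      (Q ∩ interior (N i)).Nonempty → Q ⊆ interior (N i) := by
    intro i k Q hk hQ hQR hne
    apply hQ.subset_left_of_subset_union isOpen_interior (hNc i).isClosed.isOpen_compl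
    · rw [Set.disjoint_left]
      intro y hy hy'
      exact hy' (interior_subset hy)
    · intro y hy
      by_cases hyN : y ∈ N i
      · left
        by_contra hyi
        have : y ∈ R k ∩ frontier (N i) := ⟨hQR hy, subset_closure hyN, hyi⟩
        rw [hm i k hk] at this
        exact this
      · right
        exact hyN
    · exact hne
  -- smaller neighbourhoods
  have hHcl : ∀ i k, ∀ x ∈ H i, x ∉ closure (UU k) := by
    intro i k x hx hcl
    have h1 : (⋂ l ∈ Iic k, U' l) ∈ 𝓝 x :=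
      ((finite_Iic k).isOpen_biInter fun l _ => hU'o l).mem_nhds
        (mem_iInter₂.2 fun l _ => hHU' l (mem_iUnion.2 ⟨i, hx⟩))
    obtain ⟨y, hy1, hy2⟩ := mem_closure_iff_nhds.1 hcl _ h1
    obtain ⟨l, hl, hyl⟩ := mem_iUnion₂.1 hy2
    exact Set.disjoint_left.1 (hUU' l) hyl (mem_iInter₂.1 hy1 l hl)
  have hN2 : ∀ i, ∃ N2 : Set X, IsCompact N2 ∧ H i ⊆ interior N2 ∧
      N2 ⊆ interior (N i) ∩ (closure (UU (m i)))ᶜ := by
    intro i
    apply exists_compact_between ((hK i).of_isClosed_subset (hHc i) (hHK i))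
      (isOpen_interior.inter isClosed_closure.isOpen_compl)
    intro x hx
    exact ⟨hHN i hx, hHcl i _ x hx⟩
  choose N2 hN2c hHN2 hN2N using hN2
  set L : ι → Set X := fun i => (K i ∩ N2 i) \ H i with hL
  have hLR : ∀ i, L i ⊆ R (m i) := fun i x hx =>
    ⟨hAO (mem_iUnion.2 ⟨i, hx.1.1, hx.2⟩), (hN2N i hx.1.2).2⟩
  have hLN : ∀ i, L i ⊆ interior (N i) := fun i x hx => (hN2N i hx.1.2).1
  set V : ι → Set X := fun i => ⋃ a ∈ L i, connectedComponentIn (R (m i)) a with hV
  have hVo : ∀ i, IsOpen (V i) := fun i =>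
    isOpen_biUnion fun a _ => (hRo (m i)).connectedComponentIn
  have hLV : ∀ i, L i ⊆ V i := fun i x hx =>
    mem_iUnion₂.2 ⟨x, hx, mem_connectedComponentIn (hLR i hx)⟩
  -- a member with a larger index does not meet the interior of `N i`
  have hVN : ∀ i j, i ≠ j → m i ≤ m j → Disjoint (V j) (interior (N i)) := by
    intro i j hij hmij
    rw [Set.disjoint_left]
    intro y hy hyN
    obtain ⟨b, hb, hyb⟩ := mem_iUnion₂.1 hy
    have h1 := hconn i (m j) _ hmij isPreconnected_connectedComponentIn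
      (connectedComponentIn_subset (R (m j)) b) ⟨y, hyb, hyN⟩
    exact hNK' i j (Ne.symm hij) b (interior_subset (h1 (mem_connectedComponentIn (hLR j hb))))
      hb.1.1
  have hVsub : ∀ i, V i ⊆ interior (N i) := by
    intro i y hy
    obtain ⟨b, hb, hyb⟩ := mem_iUnion₂.1 hy
    exact hconn i (m i) _ le_rfl isPreconnected_connectedComponentIn
      (connectedComponentIn_subset (R (m i)) b)
      ⟨b, mem_connectedComponentIn (hLR i hb), hLN i hb⟩ hyb
  have hVd : ∀ i j, i ≠ j → Disjoint (V i) (V j) := by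
    intro i j hij
    rcases le_total (m i) (m j) with h | h
    · exact ((hVN i j hij h).mono_right (hVsub i)).symm
    · exact (hVN j i hij.symm h).mono_right (hVsub j)
  -- the sets `S`
  have hS : ∀ l, ∃ S S' : Set X, IsOpen S ∧ IsOpen S' ∧ (⋃ i, {x ∈ K i | m i = l}) ⊆ S ∧
      (⋃ i, {x ∈ K i | m i ≠ l}) ⊆ S' ∧ Disjoint S S' := by
    intro l
    apply hd.separate
    · exact fun i x hx => hx.1
    · exact fun i x hx => hx.1
    · intro i
      by_cases h : m i = l
      · have : {x ∈ K i | m i = l} = K i := by ext x; exact ⟨fun h => h.1, fun h' => ⟨h', h⟩⟩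
        rw [this]; exact (hK i).isClosed
      · have : {x ∈ K i | m i = l} = ∅ := by
          ext x; exact ⟨fun h' => h h'.2, fun h => h.elim⟩
        rw [this]; exact isClosed_empty
    · intro i
      by_cases h : m i ≠ l
      · have : {x ∈ K i | m i ≠ l} = K i := by ext x; exact ⟨fun h => h.1, fun h' => ⟨h', h⟩⟩
        rw [this]; exact (hK i).isClosed
      · have : {x ∈ K i | m i ≠ l} = ∅ := by
          ext x; exact ⟨fun h' => h h'.2, fun h => h.elim⟩
        rw [this]; exact isClosed_empty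
    · intro i
      rw [Set.disjoint_left]
      exact fun x hx hx' => hx'.2 hx.2
  choose S S' hSo hS'o hKS hKS' hSS' using hS
  -- the set `E`
  set G : Set X := {x | ∃ W ∈ 𝓝 x, ∀ i j, (W ∩ K i).Nonempty → (W ∩ K j).Nonempty → i = j} with hG
  obtain ⟨E, E', hEo, hE'o, hLE, hE', hEE'⟩ : ∃ E E' : Set X, IsOpen E ∧ IsOpen E' ∧
      (⋃ i, L i) ⊆ E ∧ (G \ ⋃ i, H i) \ (⋃ i, V i) ⊆ E' ∧ Disjoint E E' := by
    apply separated_open
    · rw [Set.disjoint_left]
      rintro x hx ⟨⟨⟨W, hW, hij⟩, hxH⟩, hxV⟩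
      obtain ⟨y, hyW, hy⟩ := mem_closure_iff_nhds.1 hx W hW
      obtain ⟨i, hi⟩ := mem_iUnion.1 hy
      have h1 : x ∈ closure (K i ∩ N2 i) := by
        rw [mem_closure_iff_nhds]
        intro W' hW'
        obtain ⟨z, ⟨hzW', hzW⟩, hz⟩ := mem_closure_iff_nhds.1 hx (W' ∩ W) (inter_mem hW' hW)
        obtain ⟨j, hj⟩ := mem_iUnion.1 hz
        have : i = j := hij i j ⟨y, hyW, hi.1.1⟩ ⟨z, hzW, hj.1.1⟩
        subst this
        exact ⟨z, hzW', hj.1⟩
      rw [((hK i).isClosed.inter (hN2c i).isClosed).closure_eq] at h1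
      exact hxV (mem_iUnion.2 ⟨i, hLV i ⟨h1, fun h => hxH (mem_iUnion.2 ⟨i, h⟩)⟩⟩)
    · rw [Set.disjoint_left]
      intro x hx hxcl
      obtain ⟨i, hi⟩ := mem_iUnion.1 hx
      obtain ⟨y, hy, hy'⟩ := mem_closure_iff_nhds.1 hxcl _ ((hVo i).mem_nhds (hLV i hi))
      exact hy'.2 (mem_iUnion.2 ⟨i, hy⟩)
  refine ⟨fun i => interior (N2 i), fun i => V i ∩ S (m i) ∩ E, fun i => isOpen_interior, hHN2,
    fun i => ((hVo i).inter (hSo _)).inter hEo, ?_, ?_, ?_⟩
  · rintro i x ⟨⟨hxK, hxN⟩, hxH⟩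
    have hxL : x ∈ L i := ⟨⟨hxK, interior_subset hxN⟩, hxH⟩
    exact ⟨⟨hLV i hxL, hKS _ (mem_iUnion.2 ⟨i, hxK, rfl⟩)⟩, hLE (mem_iUnion.2 ⟨i, hxL⟩)⟩
  · intro i j hij
    exact (hVd i j hij).mono (fun x hx => hx.1.1) fun x hx => hx.1.1
  · intro x hx
    by_cases hxH : x ∈ ⋃ i, H i
    · obtain ⟨i, hi⟩ := mem_iUnion.1 hxH
      have h1 : interior (N i) ∩ ⋂ l ∈ Iio (m i), S' l ∈ 𝓝 x := by
        refine inter_mem (isOpen_interior.mem_nhds (hHN i hi)) ?_
        refine ((finite_Iio (m i)).isOpen_biInter fun l _ => hS'o l).mem_nhds ?_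
        refine mem_iInter₂.2 fun l hl => hKS' l (mem_iUnion.2 ⟨i, hHK i hi, ?_⟩)
        exact (ne_of_lt hl).symm
      refine ⟨_, h1, ?_⟩
      have key : ∀ j, ((interior (N i) ∩ ⋂ l ∈ Iio (m i), S' l) ∩
          (V j ∩ S (m j) ∩ E)).Nonempty → i = j := by
        rintro j ⟨y, ⟨hyN, hyS'⟩, ⟨hyV, hyS⟩, -⟩
        by_contra hij
        rcases le_or_gt (m i) (m j) with h | h
        · exact Set.disjoint_left.1 (hVN i j hij h) hyV hyN
        · exact Set.disjoint_left.1 (hSS' (m j)) hyS (mem_iInter₂.1 hyS' (m j) h)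
      intro j l hj hl
      rw [← key j hj, ← key l hl]
    · by_cases hxV : x ∈ ⋃ i, V i
      · obtain ⟨i, hi⟩ := mem_iUnion.1 hxV
        refine ⟨V i, (hVo i).mem_nhds hi, ?_⟩
        have key : ∀ j, (V i ∩ (V j ∩ S (m j) ∩ E)).Nonempty → i = j := by
          rintro j ⟨y, hyi, ⟨hyj, -⟩, -⟩
          by_contra hne
          exact Set.disjoint_left.1 (hVd i j hne) hyi hyj
        intro j l hj hl
        rw [← key j hj, ← key l hl]
      · refine ⟨E', hE'o.mem_nhds (hE' ⟨⟨hx, hxH⟩, hxV⟩), ?_⟩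
        rintro i j ⟨y, hy, ⟨-, -⟩, hyE⟩ -
        exact absurd hy (Set.disjoint_left.1 hEE' hyE)

end TF
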