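import Mathlib

/-! Relatively discrete families and the countable union lemma in hereditarily normal spaces. -/

set_option autoImplicit false

namespace TF

open Set Topology Filter

/-- A family of subsets is relatively discrete: every point of a member has a neighbourhood that
meets no other member. -/
def RelDisc {X : Type*} [TopologicalSpace X] {ι : Type*} (F : ι → Set X) : Prop :=
  ∀ i, ∀ x ∈ F i, ∃ V ∈ 𝓝 x, ∀ j, (V ∩ F j).Nonempty → j = i

/-- The members of the family can be covered by pairwise disjoint open sets. -/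
def Expands {X : Type*} [TopologicalSpace X] {ι : Type*} (F : ι → Set X) : Prop :=
  ∃ U : ι → Set X, (∀ i, IsOpen (U i)) ∧ (∀ i, F i ⊆ U i) ∧ ∀ i j, i ≠ j → Disjoint (U i) (U j)

variable {X : Type*} [TopologicalSpace X]

theorem Expands.mono {ι : Type*} {F G : ι → Set X} (h : Expands G) (hFG : ∀ i, F i ⊆ G i) :
    Expands F := by
  obtain ⟨U, hU, hGU, hd⟩ := h
  exact ⟨U, hU, fun i => (hFG i).trans (hGU i), hd⟩

theorem RelDisc.mono {ι : Type*} {F G : ι → Set X} (h : RelDisc G) (hFG : ∀ i, F i ⊆ G i) :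
    RelDisc F := by
  intro i x hx
  obtain ⟨V, hV, hj⟩ := h i x (hFG i hx)
  refine ⟨V, hV, fun j hne => hj j ?_⟩
  obtain ⟨y, hyV, hy⟩ := hne
  exact ⟨y, hyV, hFG j hy⟩

theorem RelDisc.notMem_closure {ι : Type*} {F : ι → Set X} (h : RelDisc F) {i : ι} {x : X}
    (hx : x ∈ F i) : x ∉ closure (⋃ j, ⋃ (_ : j ≠ i), F j) := by
  intro hcl
  obtain ⟨V, hV, hj⟩ := h i x hx
  obtain ⟨y, hyV, hy⟩ := mem_closure_iff_nhds.1 hcl V hV
  simp only [mem_iUnion] at hy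
  obtain ⟨j, hji, hyj⟩ := hy
  exact hji (hj j ⟨y, hyV, hyj⟩)

theorem RelDisc.of_notMem_closure {ι : Type*} {F : ι → Set X}
    (h : ∀ i, ∀ x ∈ F i, x ∉ closure (⋃ j, ⋃ (_ : j ≠ i), F j)) : RelDisc F := by
  intro i x hx
  refine ⟨(closure (⋃ j, ⋃ (_ : j ≠ i), F j))ᶜ, isClosed_closure.isOpen_compl.mem_nhds (h i x hx), ?_⟩
  rintro j ⟨y, hy, hyj⟩
  by_contra hji
  exact hy (subset_closure (mem_iUnion.2 ⟨j, mem_iUnion.2 ⟨hji, hyj⟩⟩))

theorem separated_open [CompletelyNormalSpace X] {s t : Set X} (h1 : Disjoint (closure s) t)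
    (h2 : Disjoint s (closure t)) :
    ∃ U V : Set X, IsOpen U ∧ IsOpen V ∧ s ⊆ U ∧ t ⊆ V ∧ Disjoint U V := by
  have := separatedNhds_iff_disjoint.2 (completely_normal h1 h2)
  obtain ⟨U, V, hU, hV, hs, ht, hd⟩ := this
  exact ⟨U, V, hU, hV, hs, ht, hd⟩

theorem sigma_lemma [CompletelyNormalSpace X] {ι κ : Type*} [Countable κ] {F : ι → Set X}
    (hF : RelDisc F) (L : κ → ι → Set X) (hL : ∀ k i, L k i ⊆ F i)
    (hLc : ∀ k i x, x ∈ F i → x ∈ closure (L k i) → x ∈ L k i)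
    (hcov : ∀ i, F i ⊆ ⋃ k, L k i) (hE : ∀ k, Expands (L k)) : Expands F := by
  classical
  choose U hUo hLU hUd using hE
  set Q : ι → Set X := fun i => closure (⋃ j, ⋃ (_ : j ≠ i), F j) with hQ
  set U1 : κ → ι → Set X := fun k i => U k i \ Q i with hU1
  have hU1o : ∀ k i, IsOpen (U1 k i) := fun k i => (hUo k i).sdiff isClosed_closure
  have hLU1 : ∀ k i, L k i ⊆ U1 k i := fun k i x hx =>
    ⟨hLU k i hx, hF.notMem_closure (hL k i hx)⟩
  have hU1F : ∀ k i j, i ≠ j → ∀ x ∈ F i, x ∉ U1 k j := by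
    intro k i j hij x hx hxU
    exact hxU.2 (subset_closure (mem_iUnion.2 ⟨i, mem_iUnion.2 ⟨hij, hx⟩⟩))
  have hsep : ∀ k, ∃ P R : Set X, IsOpen P ∧ IsOpen R ∧ (⋃ i, L k i) ⊆ P ∧
      ((⋃ i, F i) \ ⋃ i, U1 k i) ⊆ R ∧ Disjoint P R := by
    intro k
    apply separated_open
    · rw [Set.disjoint_left]
      rintro x hxcl ⟨hxF, hxG⟩
      obtain ⟨i, hxi⟩ := mem_iUnion.1 hxF
      obtain ⟨V, hV, hj⟩ := hF i x hxi
      have : x ∈ closure (L k i) := by
        rw [mem_closure_iff_nhds]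
        intro W hW
        obtain ⟨y, ⟨hyW, hyV⟩, hy⟩ := mem_closure_iff_nhds.1 hxcl (W ∩ V) (inter_mem hW hV)
        obtain ⟨j, hyj⟩ := mem_iUnion.1 hy
        have : j = i := hj j ⟨y, hyV, hL k j hyj⟩
        subst this
        exact ⟨y, hyW, hyj⟩
      exact hxG (mem_iUnion.2 ⟨i, hLU1 k i (hLc k i x hxi this)⟩)
    · have hop : IsOpen (⋃ i, U1 k i) := isOpen_iUnion fun i => hU1o k i
      rw [Set.disjoint_left]
      intro x hx hxcl
      obtain ⟨i, hxi⟩ := mem_iUnion.1 hx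
      have hxG : x ∈ ⋃ i, U1 k i := mem_iUnion.2 ⟨i, hLU1 k i hxi⟩
      obtain ⟨y, hyG, hy⟩ := mem_closure_iff_nhds.1 hxcl _ (hop.mem_nhds hxG)
      exact hy.2 hyG
  choose P R hPo hRo hLP hFR hPR using hsep
  set U2 : κ → ι → Set X := fun k i => U1 k i ∩ P k with hU2
  have hU2o : ∀ k i, IsOpen (U2 k i) := fun k i => (hU1o k i).inter (hPo k)
  have hLU2 : ∀ k i, L k i ⊆ U2 k i := fun k i x hx =>
    ⟨hLU1 k i hx, hLP k (mem_iUnion.2 ⟨i, hx⟩)⟩
  set D : κ → ι → Set X := fun k i => closure (⋃ j, ⋃ (_ : j ≠ i), U2 k j) with hD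
  have hFD : ∀ k i, ∀ x ∈ F i, x ∉ D k i := by
    intro k i x hx hxD
    by_cases hxG : x ∈ ⋃ i, U1 k i
    · obtain ⟨j, hxj⟩ := mem_iUnion.1 hxG
      have hji : j = i := by
        by_contra hne
        exact hU1F k i j (Ne.symm hne) x hx hxj
      subst hji
      obtain ⟨y, hyU, hy⟩ := mem_closure_iff_nhds.1 hxD _ ((hU1o k j).mem_nhds hxj)
      simp only [mem_iUnion] at hy
      obtain ⟨l, hlj, hyl⟩ := hy
      exact Set.disjoint_left.1 (hUd k l j hlj) hyl.1.1 hyU.1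
    · have hxR : x ∈ R k := hFR k ⟨mem_iUnion.2 ⟨i, hx⟩, hxG⟩
      obtain ⟨y, hyR, hy⟩ := mem_closure_iff_nhds.1 hxD _ ((hRo k).mem_nhds hxR)
      simp only [mem_iUnion] at hy
      obtain ⟨l, -, hyl⟩ := hy
      exact Set.disjoint_left.1 (hPR k) hyl.2 hyR
  obtain ⟨f, hf⟩ := Countable.exists_injective_nat κ
  set W : ι → Set X := fun i => ⋃ k, (U2 k i \ ⋃ l ∈ {l | f l ≤ f k}, D l i) with hW
  have hfin : ∀ k, {l | f l ≤ f k}.Finite := by
    intro k
    exact Set.Finite.preimage hf.injOn (Set.finite_Iic (f k))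
  refine ⟨W, ?_, ?_, ?_⟩
  · intro i
    refine isOpen_iUnion fun k => (hU2o k i).sdiff ?_
    exact (hfin k).isClosed_biUnion fun l _ => isClosed_closure
  · intro i x hx
    obtain ⟨k, hk⟩ := mem_iUnion.1 (hcov i hx)
    refine mem_iUnion.2 ⟨k, hLU2 k i hk, ?_⟩
    simp only [mem_iUnion, not_exists]
    intro l _
    exact hFD l i x hx
  · intro i j hij
    rw [Set.disjoint_left]
    intro x hxi hxj
    obtain ⟨k, hk, hk'⟩ := mem_iUnion.1 hxi
    obtain ⟨l, hl, hl'⟩ := mem_iUnion.1 hxj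
    simp only [mem_iUnion, not_exists] at hk' hl'
    rcases le_total (f k) (f l) with h | h
    · exact hl' k h (subset_closure (mem_iUnion.2 ⟨i, mem_iUnion.2 ⟨hij, hk⟩⟩))
    · exact hk' l h (subset_closure (mem_iUnion.2 ⟨j, mem_iUnion.2 ⟨hij.symm, hl⟩⟩))

/-- In a normal space, disjoint open expansions of a discrete family of closed sets can be made
discrete. -/
theorem discrete_expansion [NormalSpace X] {ι : Type*} {F : ι → Set X}
    (hc : ∀ i, IsClosed (F i))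
    (hd : ∀ x : X, ∃ V ∈ nhds x, ∀ i j, (V ∩ F i).Nonempty → (V ∩ F j).Nonempty → i = j)
    (hE : Expands F) :
    ∃ U : ι → Set X, (∀ i, IsOpen (U i)) ∧ (∀ i, F i ⊆ U i) ∧
      ∀ x : X, ∃ V ∈ nhds x, ∀ i j, (V ∩ U i).Nonempty → (V ∩ U j).Nonempty → i = j := by
  obtain ⟨U, hUo, hFU, hUd⟩ := hE
  have hcl : IsClosed (⋃ i, F i) := by
    rw [← isOpen_compl_iff, isOpen_iff_mem_nhds]
    intro x hx
    obtain ⟨V, hV, hij⟩ := hd x
    by_cases hne : ∃ i, (V ∩ F i).Nonempty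
    · obtain ⟨i, hi⟩ := hne
      have hxi : x ∈ (F i)ᶜ := fun h => hx (mem_iUnion.2 ⟨i, h⟩)
      filter_upwards [hV, (hc i).isOpen_compl.mem_nhds hxi] with y hyV hyi hy
      obtain ⟨j, hj⟩ := mem_iUnion.1 hy
      have : i = j := hij i j hi ⟨y, hyV, hj⟩
      subst this
      exact hyi hj
    · filter_upwards [hV] with y hyV hy
      obtain ⟨j, hj⟩ := mem_iUnion.1 hy
      exact hne ⟨j, y, hyV, hj⟩
  have hsub : (⋃ i, F i) ⊆ ⋃ i, U i := iUnion_mono hFU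
  obtain ⟨G, hGo, hFG, hGU⟩ := normal_exists_closure_subset hcl (isOpen_iUnion hUo) hsub
  refine ⟨fun i => U i ∩ G, fun i => (hUo i).inter hGo,
    fun i x hx => ⟨hFU i hx, hFG (mem_iUnion.2 ⟨i, hx⟩)⟩, ?_⟩
  intro x
  by_cases hx : x ∈ ⋃ i, U i
  · obtain ⟨i, hi⟩ := mem_iUnion.1 hx
    refine ⟨U i, (hUo i).mem_nhds hi, ?_⟩
    have key : ∀ j, (U i ∩ (U j ∩ G)).Nonempty → i = j := by
      rintro j ⟨y, hyi, hyj, -⟩
      by_contra hne
      exact Set.disjoint_left.1 (hUd i j hne) hyi hyj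
    intro j l hj hl
    rw [← key j hj, ← key l hl]
  · refine ⟨(closure G)ᶜ, isClosed_closure.isOpen_compl.mem_nhds fun h => hx (hGU h), ?_⟩
    rintro i j ⟨y, hy, -, hyG⟩ -
    exact absurd (subset_closure hyG) hy

end TF
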